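import Mathlib
import Pool.Agent.H482.RG.R3

/-!
Primes in a residue class, sifted by the prime factors of `p + 1`: a lower bound.
-/

set_option autoImplicit false

open Finset Filter

namespace Pool.Agent.H482.QO

open Pool.Agent.H442R2.KF
open Pool.Agent.Y855 (FL OP mem_OP VP VP_pos VP_lower VP_le_one Es Es_nonneg le_Es bvEs ErS ErS_nonneg
  ErS_le piN_ge prod_subset_le)
open Pool.Agent.H482.MR (zz zz_spec)

/-- the sifted set in a class -/
def NSp (x m a : ℕ) (P : Finset ℕ) : Finset ℕ :=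
  (Icc 1 x).filter (fun p => p.Prime ∧ p ≡ a [MOD m] ∧ ∀ q ∈ P, ¬ q ∣ p + 1)

/-- the sieve for primes in classes -/
theorem sieve_plus (ε : ℝ) (hε : 0 < ε) : ∃ B : ℕ, 1 ≤ B ∧ ∀ z : ℕ, 2 ≤ z → ∀ P : Finset ℕ,
    (∀ p ∈ P, p.Prime ∧ 3 ≤ p ∧ p ≤ z) → ∀ m : ℕ, 1 ≤ m → (∀ p ∈ P, ¬ p ∣ m) →
    ∀ a : ℕ, a.Coprime m → ∀ x : ℕ,
    |((NSp x m a P).card : ℝ) - (piN x : ℝ) / (Nat.totient m : ℝ) * VP P| ≤
      ε * ((piN x : ℝ) / (Nat.totient m : ℝ) * VP P) + (Nat.log 2 z + 2) * ErS x m z B P := by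
  obtain ⟨B, hB, h⟩ := FL ε hε
  refine ⟨B, hB, ?_⟩
  intro z hz P hP m hm hPm a ha x
  set S : Finset ℕ := (Icc 1 x).filter (fun p => p.Prime ∧ p ≡ a [MOD m]) with hS
  set X : ℝ := (piN x : ℝ) / (Nat.totient m : ℝ) with hX
  have hX0 : 0 ≤ X := by positivity
  have hm0 : (0 : ℝ) < Nat.totient m := by exact_mod_cast Nat.totient_pos.2 hm
  have hg : ∀ p ∈ P, 0 ≤ 1 / ((p : ℝ) - 1) ∧ 1 / ((p : ℝ) - 1) ≤ 1 / 2 ∧
      1 / ((p : ℝ) - 1) ≤ 2 / (p : ℝ) := by
    intro p hp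
    have h3 : (3 : ℝ) ≤ p := by exact_mod_cast (hP p hp).2.1
    refine ⟨by apply div_nonneg zero_le_one; linarith,
      one_div_le_one_div_of_le (by norm_num) (by linarith), ?_⟩
    rw [div_le_div_iff₀ (by linarith) (by linarith)]
    linarith
  have h1 := h z hz P (fun p hp => ⟨(hP p hp).1, (hP p hp).2.2⟩) (fun p => 1 / ((p : ℝ) - 1)) hg
    S (fun p => p + 1) X hX0
  have e1 : S.filter (fun ω => ∀ p ∈ P, ¬ p ∣ ω + 1) = NSp x m a P := by
    rw [hS, filter_filter]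
    unfold NSp
    apply filter_congr
    intro p _
    tauto
  rw [e1] at h1
  refine h1.trans ?_
  apply add_le_add le_rfl
  apply mul_le_mul_of_nonneg_left _ (by positivity)
  unfold ErS
  apply sum_le_sum
  intro U hU
  rw [mem_filter, mem_powerset] at hU
  set e : ℕ := ∏ p ∈ U, p with he
  have hUp : ∀ p ∈ U, p.Prime := fun p hp => (hP p (hU.1 hp)).1
  have hcop : m.Coprime e := by
    rw [he]
    apply Nat.Coprime.prod_right
    intro p hp
    rw [Nat.coprime_comm, Nat.Prime.coprime_iff_not_dvd (hUp p hp)]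
    exact hPm p (hU.1 hp)
  have he1 : 1 ≤ e := prod_pos fun p hp => (hUp p hp).pos
  obtain ⟨b, hb1, hb2⟩ := Nat.chineseRemainder hcop a (e - 1)
  have hbc : b.Coprime (m * e) := by
    apply Nat.Coprime.mul_right
    · unfold Nat.Coprime
      rw [Nat.ModEq.gcd_eq hb1]
      exact ha
    · unfold Nat.Coprime
      rw [Nat.ModEq.gcd_eq hb2]
      have h3 : Nat.Coprime (e - 1) (e - 1 + 1) := (Nat.coprime_self_add_right).2 (Nat.coprime_one_right _)
      rwa [Nat.sub_add_cancel he1] at h3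
  have hcard : S.filter (fun ω => ∀ p ∈ U, p ∣ ω + 1) =
      (Icc 1 x).filter (fun p : ℕ => p.Prime ∧ p ≡ b [MOD (m * e)]) := by
    rw [hS, filter_filter]
    apply filter_congr
    intro p hp
    have hp1 : 1 ≤ p := (mem_Icc.1 hp).1
    have hdv : (∀ q ∈ U, q ∣ p + 1) ↔ p ≡ e - 1 [MOD e] := by
      have h4 : p ≡ e - 1 [MOD e] ↔ e ∣ p + 1 := by
        constructor
        · intro h
          have h5 : p + 1 ≡ e - 1 + 1 [MOD e] := h.add_right 1
          rw [Nat.sub_add_cancel he1] at h5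
          exact (Nat.modEq_zero_iff_dvd.1 (h5.trans (by simp [Nat.ModEq])))
        · intro h
          have h5 : p + 1 ≡ e - 1 + 1 [MOD e] := by
            rw [Nat.sub_add_cancel he1]
            exact (Nat.modEq_zero_iff_dvd.2 h).trans (by simp [Nat.ModEq])
          exact Nat.ModEq.add_right_cancel' 1 h5
      rw [h4]
      constructor
      · intro h
        exact Finset.prod_primes_dvd _ (fun q hq => (hUp q hq).prime) h
      · intro h q hq
        exact (dvd_prod_of_mem (fun p => p) hq).trans h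
    rw [hdv]
    constructor
    · rintro ⟨⟨h2, h3⟩, h4⟩
      refine ⟨h2, ?_⟩
      exact (Nat.modEq_and_modEq_iff_modEq_mul hcop).1 ⟨h3.trans hb1.symm, h4.trans hb2.symm⟩
    · rintro ⟨h2, h3⟩
      have h4 := (Nat.modEq_and_modEq_iff_modEq_mul hcop).2 h3
      exact ⟨⟨h2, h4.1.trans hb1⟩, h4.2.trans hb2⟩
  have hφ : X * ∏ p ∈ U, (1 / ((p : ℝ) - 1)) = (piN x : ℝ) / (Nat.totient (m * e) : ℝ) := by
    rw [Nat.totient_mul hcop, hX]
    have h5 : ((Nat.totient e : ℕ) : ℝ) = ∏ p ∈ U, ((p : ℝ) - 1) := by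
      rw [he]
      have h6 : Nat.totient (∏ p ∈ U, p) = ∏ p ∈ U, (p - 1) := by
        have hpf : (∏ p ∈ U, p).primeFactors = U := Nat.primeFactors_prod hUp
        have h7 := Nat.totient_mul_prod_primeFactors (∏ p ∈ U, p)
        rw [hpf] at h7
        exact Nat.eq_of_mul_eq_mul_right he1 (by rw [h7, mul_comm])
      rw [h6]
      push_cast
      apply prod_congr rfl
      intro p hp
      rw [Nat.cast_sub (hUp p hp).one_le, Nat.cast_one]
    push_cast
    rw [h5, prod_div_distrib, prod_const_one]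
    field_simp
  have : ((S.filter (fun ω => ∀ p ∈ U, p ∣ ω + 1)).card : ℝ) - X * ∏ p ∈ U, (1 / ((p : ℝ) - 1)) =
      Er x (m * e) b := by
    rw [hcard, hφ]
    unfold Er piAP
    rfl
  rw [this]
  exact le_Es x (m * e) b (Nat.mul_pos hm he1) hbc

/-- an allowed class -/
def Allowed (A m : ℕ) : Prop := m ≠ 0 ∧ A.Coprime m ∧ ∀ q ∈ m.primeFactors, 3 ≤ q → A % q ≠ q - 1

theorem NSp_sdiff (x m A z : ℕ) (hA : Allowed A m) :
    NSp x m A (OP z \ m.primeFactors) = NSp x m A (OP z) := by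
  unfold NSp
  apply filter_congr
  intro p _
  constructor
  · rintro ⟨h1, h2, h3⟩
    refine ⟨h1, h2, fun q hq hqp => ?_⟩
    by_cases h : q ∈ m.primeFactors
    · have hqpr := Nat.prime_of_mem_primeFactors h
      have hqm := Nat.dvd_of_mem_primeFactors h
      have h4 : p % q = A % q := h2.of_dvd hqm
      apply hA.2.2 q h (mem_OP.1 hq).2.1
      rw [← h4]
      have h5 : (p + 1) % q = 0 := Nat.mod_eq_zero_of_dvd hqp
      have h6 := Nat.mod_lt p hqpr.pos
      have h7 := Nat.add_mod p 1 q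
      rw [h5, Nat.mod_eq_of_lt hqpr.one_lt] at h7
      by_contra hcon
      have h8 : p % q + 1 < q := by omega
      rw [Nat.mod_eq_of_lt h8] at h7
      omega
    · exact h3 q (mem_sdiff.2 ⟨hq, h⟩) hqp
  · rintro ⟨h1, h2, h3⟩
    exact ⟨h1, h2, fun q hq => h3 q (mem_sdiff.1 hq).1⟩

/-- the lower bound -/
theorem NSp_lower : ∃ K : ℝ, 10 ≤ K ∧ ∀ A m : ℕ, Allowed A m → ∃ c : ℝ, 0 < c ∧ ∀ᶠ x : ℕ in atTop,
    c * (x / (Real.log x) ^ 2) ≤ ((NSp x m A (OP (zz K x))).card : ℝ) := by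
  classical
  obtain ⟨B, hB, hsv⟩ := sieve_plus (1 / 2) (by norm_num)
  obtain ⟨c, hc, hVP⟩ := VP_lower
  obtain ⟨X₀, hX₀, hpi⟩ := piN_ge
  obtain ⟨C, hC, hbv⟩ := bvEs 4
  obtain ⟨K, hK⟩ : ∃ K : ℝ, K = 5 * B + 10 := ⟨_, rfl⟩
  have hB1 : (1 : ℝ) ≤ B := by exact_mod_cast hB
  have hK10 : 10 ≤ K := by rw [hK]; linarith
  refine ⟨K, hK10, fun A m hA => ?_⟩
  have hm0 : 1 ≤ m := Nat.one_le_iff_ne_zero.2 hA.1
  have hφ0 : (0 : ℝ) < Nat.totient m := by exact_mod_cast Nat.totient_pos.2 hm0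
  obtain ⟨X₁, hX₁, hz⟩ := zz_spec K (by linarith) 2 0
  obtain ⟨δ, hδ⟩ : ∃ δ : ℝ, δ = c / (4 * Nat.totient m) := ⟨_, rfl⟩
  have hδ0 : 0 < δ := by rw [hδ]; positivity
  refine ⟨δ / 2, by positivity, ?_⟩
  have hev1 : ∀ᶠ x : ℕ in atTop, 4 * C / δ ≤ Real.log x :=
    (Real.tendsto_log_atTop.comp tendsto_natCast_atTop_atTop).eventually_ge_atTop _
  have hev2 : ∀ᶠ x : ℕ in atTop, (m : ℝ) ≤ (x : ℝ) ^ (1 / 5 : ℝ) :=
    ((tendsto_rpow_atTop (by norm_num : (0 : ℝ) < 1 / 5)).comp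
      tendsto_natCast_atTop_atTop).eventually_ge_atTop _
  have hev3 : ∀ᶠ x : ℕ in atTop, 4 ≤ Real.log x :=
    (Real.tendsto_log_atTop.comp tendsto_natCast_atTop_atTop).eventually_ge_atTop _
  filter_upwards [hev1, hev2, hev3, eventually_ge_atTop (X₀ + X₁)] with x h1 h2 h3 hx
  have hxX₀ : X₀ ≤ x := by omega
  have hxX₁ : X₁ ≤ x := by omega
  have hx3 : 3 ≤ x := by omega
  have hxr : (3 : ℝ) ≤ x := by exact_mod_cast hx3
  have hx0 : (0 : ℝ) < x := by linarith
  have hx1 : (1 : ℝ) ≤ x := by linarith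
  obtain ⟨-, hzK, -, hz2, -⟩ := hz x hxX₁
  set z := zz K x with hzdef
  have hz2n : 2 ≤ z := by exact_mod_cast hz2
  have hz1 : (1 : ℝ) ≤ z := by linarith
  have hlz : 0 < Real.log z := Real.log_pos (by linarith)
  have hL0 : 0 < Real.log x := by linarith
  have hzL : Real.log z ≤ Real.log x := by
    apply Real.log_le_log (by linarith)
    refine le_trans ?_ hzK
    calc (z : ℝ) = (z : ℝ) ^ (1 : ℝ) := (Real.rpow_one _).symm
      _ ≤ (z : ℝ) ^ K := Real.rpow_le_rpow_of_exponent_le hz1 (by linarith)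
  rw [← NSp_sdiff x m A z hA]
  set P := OP z \ m.primeFactors with hP
  have hPz : ∀ p ∈ P, p.Prime ∧ 3 ≤ p ∧ p ≤ z := fun p hp => mem_OP.1 (mem_sdiff.1 hp).1
  have hPm : ∀ p ∈ P, ¬ p ∣ m := fun p hp hpm => (mem_sdiff.1 hp).2
    (Nat.mem_primeFactors.2 ⟨(hPz p hp).1, hpm, hA.1⟩)
  have h4 := hsv z hz2n P hPz m hm0 hPm A hA.2.1 x
  have hVPP : VP (OP z) ≤ VP P := by
    unfold VP
    apply prod_subset_le sdiff_subset
    · intro q hq
      have h5 : (3 : ℝ) ≤ q := by exact_mod_cast (mem_OP.1 hq).2.1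
      have h6 : 1 / ((q : ℝ) - 1) ≤ 1 / 2 := one_div_le_one_div_of_le (by norm_num) (by linarith)
      linarith
    · intro q hq
      have h5 : (3 : ℝ) ≤ q := by exact_mod_cast (mem_OP.1 hq).2.1
      have : 0 ≤ 1 / ((q : ℝ) - 1) := by
        apply div_nonneg zero_le_one; linarith
      linarith
  have h5 : c / Real.log x ≤ VP P := by
    refine le_trans ?_ ((hVP z hz2n).trans hVPP)
    exact div_le_div_of_nonneg_left hc.le hlz hzL
  have h6 := hpi x hxX₀
  have hmain : δ * 2 * (x / (Real.log x) ^ 2) ≤ (piN x : ℝ) / (Nat.totient m : ℝ) * VP P := by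
    have h7 : (x : ℝ) / (2 * Real.log x) / (Nat.totient m : ℝ) * (c / Real.log x) ≤
        (piN x : ℝ) / (Nat.totient m : ℝ) * VP P := by
      apply mul_le_mul _ h5 (by positivity) (by positivity)
      exact div_le_div_of_nonneg_right h6 hφ0.le
    refine le_trans (le_of_eq ?_) h7
    rw [hδ]
    field_simp
    norm_num
  -- the error
  have h8 : ErS x m z B P ≤ C * (x / Real.log x ^ 4) := by
    refine (ErS_le x m z B hm0 P (fun p hp => (hPz p hp).1)).trans ?_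
    refine le_trans ?_ (hbv x hx3)
    apply sum_le_sum_of_subset_of_nonneg
    · intro d hd
      rw [mem_Icc] at hd ⊢
      refine ⟨hd.1, Nat.le_floor ?_⟩
      have h9 : ((d : ℕ) : ℝ) ≤ m * (z : ℝ) ^ B := by exact_mod_cast hd.2
      refine h9.trans ?_
      have h10 : ((z : ℝ)) ^ B ≤ (x : ℝ) ^ (1 / 5 : ℝ) := by
        have h11 : ((z : ℝ) ^ B) ^ (5 : ℝ) ≤ ((x : ℝ) ^ (1 / 5 : ℝ)) ^ (5 : ℝ) := by
          rw [← Real.rpow_mul hx0.le, ← Real.rpow_natCast, ← Real.rpow_mul (by linarith)]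
          norm_num
          refine le_trans ?_ hzK
          apply Real.rpow_le_rpow_of_exponent_le hz1
          rw [hK]
          linarith
        exact (Real.rpow_le_rpow_iff (by positivity) (by positivity) (by norm_num)).1 h11
      calc (m : ℝ) * (z : ℝ) ^ B ≤ (x : ℝ) ^ (1 / 5 : ℝ) * (x : ℝ) ^ (1 / 5 : ℝ) :=
            mul_le_mul h2 h10 (by positivity) (by positivity)
        _ = (x : ℝ) ^ (2 / 5 : ℝ) := by
            rw [← Real.rpow_add hx0]
            norm_num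
    · intro d _ _
      exact Es_nonneg x d
  have h9 : ((Nat.log 2 z : ℝ) + 2) ≤ 2 * Real.log x := by
    have h10 : 2 ^ Nat.log 2 z ≤ z := Nat.pow_log_le_self 2 (by omega)
    have h11 : ((2 : ℝ)) ^ Nat.log 2 z ≤ z := by exact_mod_cast h10
    have h12 := Real.log_le_log (by positivity) h11
    rw [Real.log_pow] at h12
    have h13 := Real.log_two_gt_d9
    have h14 : (Nat.log 2 z : ℝ) ≤ (Real.log z) / 0.69 := by
      rw [le_div_iff₀ (by norm_num)]
      have : (0 : ℝ) ≤ Nat.log 2 z := Nat.cast_nonneg _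
      nlinarith
    have h15 : Real.log z ≤ Real.log x / 10 := by
      have h16 := Real.log_le_log (by positivity) hzK
      rw [Real.log_rpow (by linarith)] at h16
      have h17 : 10 * Real.log z ≤ K * Real.log z := mul_le_mul_of_nonneg_right hK10 hlz.le
      linarith
    have h16 : Real.log z / 0.69 ≤ Real.log x := by
      rw [div_le_iff₀ (by norm_num)]
      linarith
    linarith
  have h10 : ((Nat.log 2 z : ℝ) + 2) * ErS x m z B P ≤ δ / 2 * (x / (Real.log x) ^ 2) := by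
    have h11 : ((Nat.log 2 z : ℝ) + 2) * ErS x m z B P ≤
        (2 * Real.log x) * (C * (x / Real.log x ^ 4)) :=
      mul_le_mul h9 h8 (ErS_nonneg _ _ _ _ _) (by positivity)
    refine h11.trans ?_
    have h12 : (2 * Real.log x) * (C * (x / Real.log x ^ 4)) =
        (2 * C / Real.log x) * (x / (Real.log x) ^ 2) := by
      field_simp
    rw [h12]
    apply mul_le_mul_of_nonneg_right _ (by positivity)
    rw [div_le_iff₀ hL0]
    rw [div_le_iff₀ hδ0] at h1
    linarith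
  have h11 := (abs_le.1 h4).1
  linarith

end Pool.Agent.H482.QO
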