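import Mathlib

/-!
Lucas sequences `U_n (t, -1)` and the powers of a root of `X ^ 2 = t X + 1`.
-/

set_option autoImplicit false

open Finset

namespace Pool.Agent.H482.QO

/-- the Lucas sequence `U_n (t, -1)` -/
def lu (t : ℕ) : ℕ → ℕ
  | 0 => 0
  | 1 => 1
  | n + 2 => t * lu t (n + 1) + lu t n

theorem pow_lu {R : Type*} [CommRing R] (t : ℕ) (e : R) (he : e ^ 2 = t * e + 1) (n : ℕ) :
    e ^ (n + 1) = lu t (n + 1) * e + lu t n := by
  induction n with
  | zero => simp [lu]
  | succ n ih =>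
    rw [pow_succ, ih]
    have h : lu t (n + 1 + 1) = t * lu t (n + 1) + lu t n := rfl
    rw [h]
    push_cast
    linear_combination (lu t (n + 1) : R) * he

theorem lu_pos (t : ℕ) (ht : 1 ≤ t) : ∀ n : ℕ, 1 ≤ lu t (n + 1)
  | 0 => le_rfl
  | n + 1 => by
    have h : lu t (n + 1 + 1) = t * lu t (n + 1) + lu t n := rfl
    rw [h]
    have := lu_pos t ht n
    nlinarith

/-- if `p` divides `U_m` with `m` even then `e ^ (2 m) = 1` -/
theorem pow_eq_one_of_dvd {F : Type*} [Field F] (p : ℕ) [CharP F p] (t m : ℕ) (hm : Even m)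
    (hm0 : 0 < m) (h : p ∣ lu t m) (e : F) (he : e ^ 2 = t * e + 1) : e ^ (2 * m) = 1 := by
  obtain ⟨n, rfl⟩ : ∃ n, m = n + 1 := ⟨m - 1, by omega⟩
  have h1 : ((lu t (n + 1) : ℕ) : F) = 0 := (CharP.cast_eq_zero_iff F p _).2 h
  have h2 := pow_lu t e he n
  have he' : ((t : F) - e) ^ 2 = t * (t - e) + 1 := by linear_combination he
  have h3 := pow_lu t ((t : F) - e) he' n
  rw [h1, zero_mul, zero_add] at h2 h3
  have h4 : e * ((t : F) - e) = -1 := by linear_combination -he
  have h5 : e ^ (n + 1) * ((t : F) - e) ^ (n + 1) = 1 := by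
    rw [← mul_pow, h4, hm.neg_one_pow]
  rw [mul_comm 2, pow_mul, h2, sq]
  rw [h2, h3] at h5
  exact h5

/-- the converse -/
theorem dvd_of_pow_eq_one {F : Type*} [Field F] (p : ℕ) [CharP F p] (t m : ℕ) (hm : Even m)
    (hm0 : 0 < m) (e : F) (he : e ^ 2 = t * e + 1) (hne : e ≠ t - e) (h : e ^ (2 * m) = 1) :
    p ∣ lu t m := by
  obtain ⟨n, rfl⟩ : ∃ n, m = n + 1 := ⟨m - 1, by omega⟩
  have h2 := pow_lu t e he n
  have he' : ((t : F) - e) ^ 2 = t * (t - e) + 1 := by linear_combination he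
  have h3 := pow_lu t ((t : F) - e) he' n
  have h4 : e * ((t : F) - e) = -1 := by linear_combination -he
  have h5 : e ^ (n + 1) * ((t : F) - e) ^ (n + 1) = 1 := by
    rw [← mul_pow, h4, hm.neg_one_pow]
  rw [mul_comm 2, pow_mul] at h
  have h6 : e ^ (n + 1) = ((t : F) - e) ^ (n + 1) := by
    have h7 : e ^ (n + 1) ≠ 0 := by
      intro h0
      rw [h0] at h
      norm_num at h
    apply mul_left_cancel₀ h7
    rw [h5, ← sq, h]
  rw [h2, h3] at h6
  rw [← CharP.cast_eq_zero_iff F p]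
  have h7 : ((lu t (n + 1) : ℕ) : F) * (e - (t - e)) = 0 := by linear_combination h6
  rcases mul_eq_zero.1 h7 with h8 | h8
  · exact h8
  · exact absurd (sub_eq_zero.1 h8) hne

/-- the rank of apparition of `p` in the Lucas sequence is not a multiple of `(p + 1) / l` -/
def Good (t p : ℕ) : Prop := ∀ l : ℕ, l.Prime → 3 ≤ l → l ∣ p + 1 → ¬ p ∣ lu t ((p + 1) / l)

/-- the unit `(t + √(t² + 4)) / 2` -/
noncomputable def eps (t : ℕ) : ℝ := (t + √((t : ℝ) ^ 2 + 4)) / 2

theorem eps_sq (t : ℕ) : eps t ^ 2 = t * eps t + 1 := by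
  unfold eps
  have h := Real.sq_sqrt (show (0 : ℝ) ≤ (t : ℝ) ^ 2 + 4 by positivity)
  linear_combination h / 4

theorem eps_pos (t : ℕ) : 0 < eps t := by
  unfold eps
  have h : 0 < √((t : ℝ) ^ 2 + 4) := Real.sqrt_pos.2 (by positivity)
  positivity

/-- multiplicative independence of the units -/
def IndU {ι : Type*} [Fintype ι] (t : ι → ℕ) : Prop :=
  ∀ c : ι → ℤ, ∏ i, eps (t i) ^ (c i) = 1 → ∀ i, c i = 0

theorem IndU.comp {ι κ : Type*} [Fintype ι] [Fintype κ] {t : ι → ℕ} (h : IndU t) (f : κ → ι)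
    (hf : Function.Injective f) : IndU (fun k => t (f k)) := by
  classical
  intro c hc k
  have h1 := h (fun i => if h : ∃ k, f k = i then c h.choose else 0) (by
    rw [← hc]
    symm
    have hv : ∀ k, (if h : ∃ k', f k' = f k then c h.choose else 0) = c k := by
      intro k
      rw [dif_pos ⟨k, rfl⟩]
      congr 1
      exact hf (Exists.choose_spec (⟨k, rfl⟩ : ∃ k', f k' = f k))
    calc ∏ k, eps (t (f k)) ^ c k
        = ∏ k, eps (t (f k)) ^ (if h : ∃ k', f k' = f k then c h.choose else 0) :=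
          prod_congr rfl fun k _ => by rw [hv k]
      _ = ∏ i ∈ univ.image f, eps (t i) ^ (if h : ∃ k, f k = i then c h.choose else 0) := by
          rw [prod_image (fun a _ b _ hab => hf hab)]
      _ = _ := by
          apply prod_subset (subset_univ _)
          intro i _ hi
          rw [dif_neg, zpow_zero]
          rintro ⟨k, hk⟩
          exact hi (mem_image.2 ⟨k, mem_univ k, hk⟩)) (f k)
  rw [dif_pos ⟨k, rfl⟩] at h1
  rw [← h1]
  congr 1
  exact (hf (Exists.choose_spec (⟨k, rfl⟩ : ∃ k', f k' = f k))).symm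

end Pool.Agent.H482.QO
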