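import Mathlib
import Pool.Agent.H482.QO.Q2

/-!
The residue field of an inert prime.
-/

set_option autoImplicit false

namespace Pool.Agent.H482.QO

section field

variable {k : Type*} [Field k] (p : ℕ) [hp : Fact p.Prime] [CharP k p]

/-- the conjugate of the square root -/
theorem root_pow (hp4 : p % 4 = 3) (d : ℕ) (s : k) (hs : s ^ 2 = d) (hj : jacobiSym d p = -1) :
    s ^ p = -s := by
  have h1 : ((d : ℤ) : ZMod p) ^ (p / 2) = -1 := by
    rw [← legendreSym.eq_pow, jacobiSym.legendreSym.to_jacobiSym, hj]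
    push_cast
    rfl
  have h2 : ((d : ℕ) : k) ^ (p / 2) = -1 := by
    have h3 := congrArg (ZMod.castHom (m := p) dvd_rfl k) h1
    rw [map_pow, map_neg, map_one, map_intCast, Int.cast_natCast] at h3
    exact h3
  obtain ⟨m, hm⟩ : ∃ m, p = 2 * m + 1 := ⟨p / 2, by omega⟩
  have h3 : p / 2 = m := by omega
  rw [h3] at h2
  calc s ^ p = s ^ (2 * m + 1) := by rw [← hm]
    _ = (s ^ 2) ^ m * s := by rw [pow_succ, pow_mul]
    _ = -s := by rw [hs, h2]; ring

/-- an integer has the `p`-th power itself -/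
theorem nat_pow (n : ℕ) : (n : k) ^ p = n := by
  have h1 : ((n : ZMod p)) ^ p = n := ZMod.pow_card _
  have h2 := congrArg (ZMod.castHom (m := p) dvd_rfl k) h1
  rw [map_pow, map_natCast] at h2
  exact h2

omit hp in
theorem two_ne (hp4 : p % 4 = 3) : (2 : k) ≠ 0 := by
  intro h
  have h1 : ((2 : ℕ) : k) = 0 := by exact_mod_cast h
  rw [CharP.cast_eq_zero_iff k p] at h1
  have h2 := Nat.le_of_dvd (by norm_num) h1
  omega

variable (hp4 : p % 4 = 3) (d t y : ℕ) (s e : k) (hs : s ^ 2 = d) (hj : jacobiSym d p = -1)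
  (hty : t ^ 2 + 4 = d * y ^ 2) (he : 2 * e = t + y * s)

include hp4 hs hj he in
theorem unit_pow : e ^ p = t - e := by
  have h1 : (2 * e) ^ p = t - y * s := by
    rw [he, add_pow_char, mul_pow, nat_pow, nat_pow, root_pow p hp4 d s hs hj]
    ring
  rw [mul_pow] at h1
  have h2 : (2 : k) ^ p = 2 := by exact_mod_cast nat_pow (k := k) p 2
  rw [h2] at h1
  apply mul_left_cancel₀ (two_ne (k := k) p hp4)
  linear_combination h1 + he

include hp4 hs hty he in
theorem unit_sq : e ^ 2 = t * e + 1 := by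
  have h1 : ((t : ℕ) : k) ^ 2 + 4 = d * (y : k) ^ 2 := by exact_mod_cast congrArg (fun n : ℕ => (n : k)) hty
  have h2 : (4 : k) ≠ 0 := by
    have := two_ne (k := k) p hp4
    intro h
    apply this
    have h3 : (2 : k) * 2 = 0 := by rw [← h]; norm_num
    rcases mul_eq_zero.1 h3 with h | h <;> exact h
  apply mul_left_cancel₀ h2
  linear_combination (2 * e - t + y * s) * he + (y : k) ^ 2 * hs - h1

include hp4 hs hj hty he in
theorem unit_norm : e ^ (p + 1) = -1 := by
  rw [pow_succ, unit_pow p hp4 d t y s e hs hj he]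
  linear_combination -unit_sq p hp4 d t y s e hs hty he

omit hp in
include hs he in
theorem unit_ne (hc : ¬ p ∣ y * d) : e ≠ t - e := by
  intro h
  have h1 : (y : k) * s = 0 := by linear_combination h - he
  apply hc
  rw [← CharP.cast_eq_zero_iff k p]
  push_cast
  rw [← hs]
  rcases mul_eq_zero.1 h1 with h | h
  · rw [h, zero_mul]
  · rw [h]; ring

omit hp in
include hty in
theorem not_dvd (hp' : p.Prime) (hp4 : p % 4 = 3) : ¬ p ∣ y * d := by
  intro h
  have : Fact p.Prime := ⟨hp'⟩
  have h1 : p ∣ t ^ 2 + 4 := by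
    rw [hty]
    rcases hp'.dvd_mul.1 h with h | h
    · exact (h.pow two_ne_zero).mul_left d
    · exact h.mul_right _
  have h2 : ((t : ZMod p)) ^ 2 = -(2 : ZMod p) ^ 2 := by
    have h3 : (((t ^ 2 + 4 : ℕ)) : ZMod p) = 0 := (ZMod.natCast_eq_zero_iff _ _).2 h1
    push_cast at h3
    linear_combination h3
  exact ZMod.mod_four_ne_three_of_sq_eq_neg_sq' (two_ne (k := ZMod p) p hp4) h2 hp4

include hp4 hs hj hty he in
theorem order_zeta (hG : Good t p) : orderOf (e ^ (p - 1)) = p + 1 := by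
  have hN := unit_norm p hp4 d t y s e hs hj hty he
  have hp2 : 2 ≤ p := hp.out.two_le
  have hz2 : e ^ (p - 1) * e ^ 2 = -1 := by
    rw [← pow_add, show p - 1 + 2 = p + 1 by omega, hN]
  apply orderOf_eq_of_pow_and_pow_div_prime (Nat.succ_pos p)
  · rw [← pow_mul, mul_comm, pow_mul, hN]
    have h1 : Even (p - 1) := by
      rw [Nat.even_iff]
      omega
    exact h1.neg_one_pow
  · intro q hq hqp h
    obtain ⟨m, hm⟩ := hqp
    change p + 1 = q * m at hm
    change (e ^ (p - 1)) ^ ((p + 1) / q) = 1 at h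
    have hm' : (p + 1) / q = m := by
      rw [hm, Nat.mul_div_cancel_left _ hq.pos]
    rw [hm'] at h
    have hm0 : 0 < m := by
      rcases Nat.eq_zero_or_pos m with rfl | h0
      · rw [mul_zero] at hm
        omega
      · exact h0
    rcases hq.eq_two_or_odd' with rfl | hqo
    · obtain ⟨r, hr⟩ : ∃ r, (p - 1) = 2 * (2 * r + 1) := ⟨(p - 3) / 4, by omega⟩
      have h1 : (p - 1) * m = (p + 1) * (2 * r + 1) := by
        rw [hr, hm]
        ring
      rw [← pow_mul, h1, pow_mul, hN, Odd.neg_one_pow ⟨r, rfl⟩] at h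
      have h2 := two_ne (k := k) p hp4
      apply h2
      linear_combination -h
    · have hme : Even m := by
        have h1 : Even (q * m) := by
          rw [← hm, Nat.even_iff]
          omega
        rcases Nat.even_mul.1 h1 with h2 | h2
        · exact absurd h2 (Nat.not_even_iff_odd.2 hqo)
        · exact h2
      have h1 : e ^ (2 * m) = 1 := by
        have h2 : (e ^ (p - 1)) ^ m * (e ^ 2) ^ m = 1 := by
          rw [← mul_pow, hz2, hme.neg_one_pow]
        rw [h, one_mul, ← pow_mul] at h2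
        exact h2
      have hq3 : 3 ≤ q := by
        have := hq.two_le
        rcases Nat.lt_or_ge 2 q with h2 | h2
        · exact h2
        · have : q = 2 := le_antisymm h2 this
          rw [this] at hqo
          exact absurd hqo (by decide)
      apply hG q hq hq3 ⟨m, hm⟩
      rw [hm']
      exact dvd_of_pow_eq_one p t m hme hm0 e (unit_sq p hp4 d t y s e hs hty he)
        (unit_ne p d t y s e hs he (not_dvd p d t y hty hp.out hp4)) h1

include hp4 hs hj hty he in
theorem exists_unit_mul (hG : Good t p) (x : k) (hx : x ^ (p ^ 2 - 1) = 1) :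
    ∃ (i : ℕ) (n : ℤ), e ^ i * x = n := by
  have ho := order_zeta p hp4 d t y s e hs hj hty he hG
  have hp2 : 2 ≤ p := hp.out.two_le
  have hprim : IsPrimitiveRoot (e ^ (p - 1)) (p + 1) := by
    rw [← ho]
    exact IsPrimitiveRoot.orderOf _
  have h1 : ((x ^ (p - 1))⁻¹) ^ (p + 1) = 1 := by
    have h2 : (p - 1) * (p + 1) = p ^ 2 - 1 := by
      obtain ⟨m, rfl⟩ : ∃ m, p = m + 1 := ⟨p - 1, by omega⟩
      rw [Nat.add_sub_cancel]
      have : (m + 1) ^ 2 = m * (m + 1 + 1) + 1 := by ring
      omega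
    rw [inv_pow, ← pow_mul, h2, hx, inv_one]
  have hx0 : x ≠ 0 := by
    rintro rfl
    have h2 : p ^ 2 - 1 ≠ 0 := by
      have : 2 ^ 2 ≤ p ^ 2 := Nat.pow_le_pow_left hp2 2
      omega
    rw [zero_pow h2] at hx
    exact zero_ne_one hx
  obtain ⟨i, _, hi⟩ := hprim.eq_pow_of_pow_eq_one h1
  refine ⟨i, ?_⟩
  have h2 : (e ^ i * x) ^ p = e ^ i * x := by
    have h3 : (e ^ i * x) ^ (p - 1) = 1 := by
      rw [mul_pow, ← pow_mul, mul_comm i, pow_mul, hi, inv_mul_cancel₀ (pow_ne_zero _ hx0)]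
    calc (e ^ i * x) ^ p = (e ^ i * x) ^ (p - 1) * (e ^ i * x) := by
          rw [← pow_succ, show p - 1 + 1 = p by omega]
      _ = _ := by rw [h3, one_mul]
  have h4 := (Subfield.mem_bot_iff_pow_eq_self (F := k) (p := p)).2 h2
  obtain ⟨n, hn⟩ := (mem_bot_iff_intCast p k).1 h4
  exact ⟨n, hn.symm⟩

end field

end Pool.Agent.H482.QO
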