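import Mathlib

/-!
The class group of an order whose conductor is a maximal ideal.
-/

set_option autoImplicit false

open nonZeroDivisors

namespace Pool.Agent.H482.QO

section gen

variable {R : Type*} [CommRing R] [IsDomain R]

/-- integral representatives -/
theorem exists_int (c : ClassGroup R) : ∃ (I : (FractionalIdeal R⁰ (FractionRing R))ˣ) (I' : Ideal R),
    (I : FractionalIdeal R⁰ (FractionRing R)) = I' ∧ c = ClassGroup.mk (FractionRing R) I := by
  refine ClassGroup.induction (R := R) (FractionRing R) ?_ c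
  intro J
  have hd : algebraMap R (FractionRing R) ((J : FractionalIdeal R⁰ (FractionRing R)).den) ≠ 0 :=
    IsFractionRing.to_map_ne_zero_of_mem_nonZeroDivisors (SetLike.coe_mem _)
  refine ⟨J * toPrincipalIdeal R (FractionRing R) (Units.mk0 _ hd),
    (J : FractionalIdeal R⁰ (FractionRing R)).num, ?_, ?_⟩
  · rw [Units.val_mul, coe_toPrincipalIdeal, Units.val_mk0, mul_comm,
      FractionalIdeal.den_mul_self_eq_num']
  · rw [ClassGroup.mk_eq_mk]
    exact ⟨_, rfl⟩

/-- an invertible ideal has an inverse up to a principal ideal -/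
theorem exists_mul (I : (FractionalIdeal R⁰ (FractionRing R))ˣ) (I' : Ideal R)
    (h : (I : FractionalIdeal R⁰ (FractionRing R)) = I') :
    ∃ (J : Ideal R) (x : R), x ≠ 0 ∧ I' * J = Ideal.span {x} := by
  refine ⟨((I⁻¹ : (FractionalIdeal R⁰ (FractionRing R))ˣ) : FractionalIdeal R⁰ (FractionRing R)).num,
    ((I⁻¹ : (FractionalIdeal R⁰ (FractionRing R))ˣ) : FractionalIdeal R⁰ (FractionRing R)).den,
    nonZeroDivisors.coe_ne_zero _, ?_⟩
  apply FractionalIdeal.coeIdeal_injective (K := FractionRing R)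
  simp only
  rw [FractionalIdeal.coeIdeal_mul, ← h, ← FractionalIdeal.den_mul_self_eq_num',
    FractionalIdeal.coeIdeal_span_singleton, mul_left_comm, Units.mul_inv, mul_one]

/-- the converse -/
theorem unit_of_mul (I J : Ideal R) (x : R) (hx : x ≠ 0) (h : I * J = Ideal.span {x}) :
    ∃ u : (FractionalIdeal R⁰ (FractionRing R))ˣ, (u : FractionalIdeal R⁰ (FractionRing R)) = I := by
  have hx' : algebraMap R (FractionRing R) x ≠ 0 := by
    rw [Ne, FaithfulSMul.algebraMap_eq_zero_iff]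
    exact hx
  have h1 : (I : FractionalIdeal R⁰ (FractionRing R)) *
      (J * FractionalIdeal.spanSingleton R⁰ (algebraMap R (FractionRing R) x)⁻¹) = 1 := by
    rw [← mul_assoc, ← FractionalIdeal.coeIdeal_mul, h, FractionalIdeal.coeIdeal_span_singleton,
      FractionalIdeal.spanSingleton_mul_spanSingleton, mul_inv_cancel₀ hx',
      FractionalIdeal.spanSingleton_one]
  exact ⟨Units.mkOfMulEqOne _ _ h1, rfl⟩

omit [IsDomain R] in
theorem exists_quot (I : Ideal R) (x : R) (h : I ≤ Ideal.span {x}) : ∃ J : Ideal R,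
    I = Ideal.span {x} * J := by
  refine ⟨Submodule.comap (LinearMap.mulLeft R x) I, ?_⟩
  ext z
  rw [Ideal.mem_span_singleton_mul]
  constructor
  · intro hz
    obtain ⟨y, hy⟩ := Ideal.mem_span_singleton'.1 (h hz)
    refine ⟨y, ?_, by rw [mul_comm]; exact hy⟩
    rw [Submodule.mem_comap, LinearMap.mulLeft_apply, mul_comm, hy]
    exact hz
  · rintro ⟨y, hy, rfl⟩
    exact hy

end gen

section order

variable {B : Type*} [CommRing B] [IsDomain B] (A : Subring B) (P : Ideal B)

/-- the standing assumptions -/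
structure Cnd : Prop where
  /-- the conductor is in the order -/
  sub : ∀ x ∈ P, x ∈ A
  /-- the conductor is proper -/
  ne : (1 : B) ∉ P
  /-- the residue ring of the order is a field -/
  inv : ∀ a ∈ A, a ∉ P → ∃ a' ∈ A, a * a' - 1 ∈ P
  /-- the residue ring is a field -/
  invB : ∀ a : B, a ∉ P → ∃ a' : B, a * a' - 1 ∈ P

variable [Module.IsTorsionFree A B]

theorem cg_injective (hC : Cnd A P) (hu : ∀ x : B, x ∉ P → ∃ u : Bˣ, (u : B) * x ∈ A) :
    Function.Injective (ClassGroup.extendedHom A B) := by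
  classical
  rw [injective_iff_map_eq_one]
  intro c hc
  obtain ⟨I, I', hI, rfl⟩ := exists_int c
  obtain ⟨J, x, hx, hIJ⟩ := exists_mul I I' hI
  rw [ClassGroup.mk_eq_one_of_coe_ideal hI]
  rw [ClassGroup.extendedHom_mk, ClassGroup.mk_eq_one_of_coe_ideal (I' := I'.map (algebraMap A B)) (by
    rw [Units.coe_map]
    change FractionalIdeal.extendedHom (FractionRing B) B (I : FractionalIdeal A⁰ (FractionRing A)) = _
    rw [hI, FractionalIdeal.extendedHom_coeIdeal_eq_map])] at hc
  obtain ⟨β, hβ, hIβ⟩ := hc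
  have hcoe : ∀ a : A, algebraMap A B a = (a : B) := fun _ => rfl
  have hmem : ∀ i ∈ I', ∃ j : B, β * j = (i : B) := by
    intro i hi
    have h1 : (i : B) ∈ I'.map (algebraMap A B) := Ideal.mem_map_of_mem _ hi
    rw [hIβ] at h1
    obtain ⟨j, hj⟩ := Ideal.mem_span_singleton'.1 h1
    exact ⟨j, by rw [mul_comm]; exact hj⟩
  -- an element outside `P`
  have h2 : ∃ j : B, j ∉ P ∧ ∃ i ∈ I', (i : B) = β * j := by
    by_contra hcon
    push Not at hcon
    have h3 : I'.map (algebraMap A B) ≤ Ideal.span {β} * P := by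
      rw [Ideal.map_le_iff_le_comap]
      intro i hi
      obtain ⟨j, hj⟩ := hmem i hi
      rw [Ideal.mem_comap, Ideal.mem_span_singleton_mul]
      refine ⟨j, ?_, hj⟩
      by_contra hjP
      exact hcon j hjP i hi hj.symm
    have h4 : β ∈ Ideal.span {β} * P := h3 (by rw [hIβ]; exact Ideal.mem_span_singleton_self β)
    obtain ⟨q, hq, hq'⟩ := Ideal.mem_span_singleton_mul.1 h4
    have h5 : q = 1 := by
      apply mul_left_cancel₀ hβ
      rw [hq', mul_one]
    exact hC.ne (h5 ▸ hq)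
  -- the multiples in `P`
  have h3 : ∀ z ∈ I'.map (algebraMap A B), ∀ y ∈ P, ∃ i ∈ I', (i : B) = z * y := by
    intro z hz
    refine Submodule.span_induction (p := fun z _ => ∀ y ∈ P, ∃ i ∈ I', (i : B) = z * y)
      ?_ ?_ ?_ ?_ hz
    · rintro _ ⟨i, hi, rfl⟩ y hy
      exact ⟨i * ⟨y, hC.sub y hy⟩, I'.mul_mem_right _ hi, rfl⟩
    · intro y _
      exact ⟨0, I'.zero_mem, by simp⟩
    · intro z₁ z₂ _ _ ih₁ ih₂ y hy
      obtain ⟨i₁, hi₁, h₁⟩ := ih₁ y hy
      obtain ⟨i₂, hi₂, h₂⟩ := ih₂ y hy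
      exact ⟨i₁ + i₂, I'.add_mem hi₁ hi₂, by rw [Subring.coe_add, h₁, h₂]; ring⟩
    · intro b z _ ih y hy
      obtain ⟨i, hi, h⟩ := ih (b * y) (P.mul_mem_left b hy)
      exact ⟨i, hi, by rw [h, smul_eq_mul]; ring⟩
  obtain ⟨j, hj, i₁, hi₁, hi₁'⟩ := h2
  obtain ⟨u, huj⟩ := hu j hj
  have hujP : (u : B) * j ∉ P := by
    intro h
    apply hj
    have := P.mul_mem_left ((u⁻¹ : Bˣ) : B) h
    rwa [← mul_assoc, Units.inv_mul, one_mul] at this
  obtain ⟨a', ha', hq⟩ := hC.inv _ huj hujP
  obtain ⟨i₂, hi₂, hi₂'⟩ := h3 β (by rw [hIβ]; exact Ideal.mem_span_singleton_self β)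
    (((u⁻¹ : Bˣ) : B) * ((u : B) * j * a' - 1)) (P.mul_mem_left _ hq)
  obtain ⟨g, hg⟩ : ∃ g : A, g = i₁ * ⟨a', ha'⟩ - i₂ := ⟨_, rfl⟩
  have hgI : g ∈ I' := by
    rw [hg]
    exact I'.sub_mem (I'.mul_mem_right _ hi₁) hi₂
  have hgB : (g : B) = β * ((u⁻¹ : Bˣ) : B) := by
    rw [hg, AddSubgroupClass.coe_sub, Subring.coe_mul, hi₁', hi₂']
    have := Units.inv_mul u
    linear_combination (-β * j * a') * this
  have hg0 : (g : B) ≠ 0 := by
    rw [hgB]
    exact mul_ne_zero hβ (Units.ne_zero _)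
  have hmem' : ∀ i ∈ I', ∃ z : B, (g : B) * z = (i : B) := by
    intro i hi
    obtain ⟨j, hj⟩ := hmem i hi
    refine ⟨u * j, ?_⟩
    rw [hgB, ← hj]
    have := Units.inv_mul u
    linear_combination (β * j) * this
  -- an element of `J`
  have h5 : ∃ w ∈ J, ∃ l : A, (l : B) ∉ P ∧ w * g = x * l := by
    by_contra hcon
    push Not at hcon
    have h6 : ∀ v ∈ I' * J, (v : B) ∈ Ideal.span {(x : B)} * P := by
      intro v hv
      refine Submodule.mul_induction_on hv ?_ ?_
      · intro i hi w hw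
        obtain ⟨z, hz⟩ := hmem' i hi
        have h7 : w * g ∈ Ideal.span {x} := by
          rw [← hIJ, mul_comm w g]
          exact Ideal.mul_mem_mul hgI hw
        obtain ⟨l, hl⟩ := Ideal.mem_span_singleton'.1 h7
        have hlP : (l : B) ∈ P := by
          by_contra h
          exact hcon w hw l h (by rw [mul_comm x l]; exact hl.symm)
        rw [Ideal.mem_span_singleton_mul]
        refine ⟨z * l, P.mul_mem_left z hlP, ?_⟩
        have h8 := congrArg (fun a : A => (a : B)) hl
        simp only [Subring.coe_mul] at h8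
        change (x : B) * (z * l) = ((i * w : A) : B)
        rw [Subring.coe_mul, ← hz]
        linear_combination z * h8
      · intro v₁ v₂ h₁ h₂
        rw [Subring.coe_add]
        exact Ideal.add_mem _ h₁ h₂
    have h7 := h6 x (by rw [hIJ]; exact Ideal.mem_span_singleton_self x)
    obtain ⟨q, hq, hq'⟩ := Ideal.mem_span_singleton_mul.1 h7
    have hx' : (x : B) ≠ 0 := by
      intro h
      exact hx (Subtype.ext h)
    have h8 : q = 1 := by
      apply mul_left_cancel₀ hx'
      rw [hq', mul_one]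
    exact hC.ne (h8 ▸ hq)
  obtain ⟨w, hw, l, hlP, hwl⟩ := h5
  have hx' : (x : B) ≠ 0 := fun h => hx (Subtype.ext h)
  refine ⟨g, fun h => hg0 (by rw [h]; rfl), ?_⟩
  apply le_antisymm
  · intro i hi
    obtain ⟨z, hz⟩ := hmem' i hi
    have h7 : i * w ∈ Ideal.span {x} := by
      rw [← hIJ]
      exact Ideal.mul_mem_mul hi hw
    obtain ⟨m, hm⟩ := Ideal.mem_span_singleton'.1 h7
    have h8 := congrArg (fun a : A => (a : B)) hm
    have h9 := congrArg (fun a : A => (a : B)) hwl
    simp only [Subring.coe_mul] at h8 h9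
    have h10 : z * l = m := by
      apply mul_left_cancel₀ hx'
      rw [← hz] at h8
      linear_combination (-1 : B) * h8 - z * h9
    obtain ⟨l', hl', hql⟩ := hC.inv l l.2 hlP
    have hzA : z ∈ A := by
      have h11 : z = m * l' - z * (l * l' - 1) := by
        rw [← h10]
        ring
      rw [h11]
      exact A.sub_mem (A.mul_mem m.2 hl') (hC.sub _ (P.mul_mem_left z hql))
    rw [Ideal.mem_span_singleton']
    exact ⟨⟨z, hzA⟩, Subtype.ext (by rw [Subring.coe_mul, mul_comm]; exact hz)⟩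
  · rw [Ideal.span_singleton_le_iff_mem]
    exact hgI

theorem cg_surjective (hC : Cnd A P) : Function.Surjective (ClassGroup.extendedHom A B) := by
  classical
  intro c
  obtain ⟨V, a₀, hV, rfl⟩ := exists_int c
  obtain ⟨b₀, x₀, hx₀, hab⟩ := exists_mul V a₀ hV
  -- elements whose product is not in `x₀ P`
  have h1 : ∃ y ∈ a₀, ∃ w ∈ b₀, ∃ e : B, e ∉ P ∧ y * w = x₀ * e := by
    by_contra hcon
    push Not at hcon
    have h2 : a₀ * b₀ ≤ Ideal.span {x₀} * P := by
      rw [Ideal.mul_le]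
      intro y hy w hw
      have h3 : y * w ∈ Ideal.span {x₀} := by
        rw [← hab]
        exact Ideal.mul_mem_mul hy hw
      obtain ⟨e, he⟩ := Ideal.mem_span_singleton'.1 h3
      rw [Ideal.mem_span_singleton_mul]
      refine ⟨e, ?_, by rw [mul_comm]; exact he⟩
      by_contra h
      exact hcon y hy w hw e h (by rw [mul_comm x₀ e]; exact he.symm)
    have h3 : x₀ ∈ Ideal.span {x₀} * P := h2 (by rw [hab]; exact Ideal.mem_span_singleton_self _)
    obtain ⟨q, hq, hq'⟩ := Ideal.mem_span_singleton_mul.1 h3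
    have h4 : q = 1 := by
      apply mul_left_cancel₀ hx₀
      rw [hq', mul_one]
    exact hC.ne (h4 ▸ hq)
  obtain ⟨y₀, hy₀, w₀, hw₀, e, he, hyw⟩ := h1
  have he0 : e ≠ 0 := by
    rintro rfl
    exact he P.zero_mem
  have hw0 : w₀ ≠ 0 := by
    rintro rfl
    rw [mul_zero] at hyw
    exact (mul_ne_zero hx₀ he0) hyw.symm
  -- the ideal prime to `P`
  obtain ⟨a, ha⟩ := exists_quot (Ideal.span {w₀} * a₀) x₀ (by
    rw [← hab, mul_comm a₀ b₀]
    exact Ideal.mul_mono_left ((Ideal.span_singleton_le_iff_mem _).2 hw₀))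
  have hab' : a * b₀ = Ideal.span {w₀} := by
    rw [← Ideal.span_singleton_mul_right_inj hx₀, ← mul_assoc, ← ha, mul_assoc, hab, mul_comm]
  have hea : e ∈ a := by
    have h2 : x₀ * e ∈ Ideal.span {x₀} * a := by
      rw [← ha, ← hyw, mul_comm y₀ w₀]
      exact Ideal.mul_mem_mul (Ideal.mem_span_singleton_self _) hy₀
    obtain ⟨z, hz, hz'⟩ := Ideal.mem_span_singleton_mul.1 h2
    rw [← mul_left_cancel₀ hx₀ hz']
    exact hz
  obtain ⟨e', he'⟩ := hC.invB e he
  obtain ⟨α, hα⟩ : ∃ α : B, α = e * e' := ⟨_, rfl⟩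
  obtain ⟨q, hq⟩ : ∃ q : B, q = 1 - α := ⟨_, rfl⟩
  have hqP : q ∈ P := by
    rw [hq, hα, ← neg_sub]
    exact P.neg_mem he'
  have hαa : α ∈ a := by
    rw [hα]
    exact a.mul_mem_right _ hea
  have hαq : α = 1 - q := by rw [hq]; ring
  have hαA : α ∈ A := by
    rw [hαq]
    exact A.sub_mem A.one_mem (hC.sub q hqP)
  have hα0 : α ≠ 0 := by
    intro h
    rw [h] at hq
    rw [hq, sub_zero] at hqP
    exact hC.ne hqP
  -- the complementary ideal
  obtain ⟨k, hk⟩ := exists_quot (Ideal.span {α} * b₀) w₀ (by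
    rw [← hab']
    exact Ideal.mul_mono_left ((Ideal.span_singleton_le_iff_mem _).2 hαa))
  have hak : a * k = Ideal.span {α} := by
    rw [← Ideal.span_singleton_mul_right_inj hw0, mul_left_comm, ← hk, mul_left_comm, hab', mul_comm]
  have hαk : α ∈ k := by
    have hwb : w₀ ∈ b₀ := hw₀
    have h2 : w₀ * α ∈ Ideal.span {w₀} * k := by
      rw [← hk, mul_comm w₀ α]
      exact Ideal.mul_mem_mul (Ideal.mem_span_singleton_self _) hwb
    obtain ⟨z, hz, hz'⟩ := Ideal.mem_span_singleton_mul.1 h2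
    rw [← mul_left_cancel₀ hw0 hz']
    exact hz
  set I : Ideal A := a.comap (algebraMap A B) with hI
  set Ik : Ideal A := k.comap (algebraMap A B) with hIk
  have hcoe : ∀ a : A, algebraMap A B a = (a : B) := fun _ => rfl
  set αA : A := ⟨α, hαA⟩ with hαAdef
  set qA : A := ⟨q, hC.sub q hqP⟩ with hqAdef
  have hprod : I * Ik = Ideal.span {αA} := by
    apply le_antisymm
    · rw [Ideal.mul_le]
      intro i hi κ hκ
      have h2 : (i : B) * (κ : B) ∈ Ideal.span {α} := by
        rw [← hak]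
        exact Ideal.mul_mem_mul hi hκ
      obtain ⟨z, hz⟩ := Ideal.mem_span_singleton'.1 h2
      have hzA : z ∈ A := by
        have h3 : z = (i : B) * (κ : B) + q * z := by
          rw [← hz, hαq]
          ring
        rw [h3]
        exact A.add_mem (A.mul_mem i.2 κ.2) (hC.sub _ (P.mul_mem_right z hqP))
      rw [Ideal.mem_span_singleton']
      exact ⟨⟨z, hzA⟩, Subtype.ext hz⟩
    · rw [Ideal.span_singleton_le_iff_mem]
      have h2 : ∀ v ∈ a * k, ∃ i ∈ I * Ik, (i : B) = q * q * v := by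
        intro v hv
        refine Submodule.mul_induction_on hv ?_ ?_
        · intro i hi κ hκ
          refine ⟨⟨q * i, hC.sub _ (P.mul_mem_right i hqP)⟩ * ⟨q * κ, hC.sub _ (P.mul_mem_right κ hqP)⟩,
            Ideal.mul_mem_mul (a.mul_mem_left q hi) (k.mul_mem_left q hκ), ?_⟩
          rw [Subring.coe_mul]
          change q * i * (q * κ) = q * q * (i * κ)
          ring
        · rintro v₁ v₂ ⟨i₁, hi₁, h₁⟩ ⟨i₂, hi₂, h₂⟩
          exact ⟨i₁ + i₂, Ideal.add_mem _ hi₁ hi₂, by rw [Subring.coe_add, h₁, h₂]; ring⟩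
      obtain ⟨i₀, hi₀, hi₀'⟩ := h2 α (by rw [hak]; exact Ideal.mem_span_singleton_self _)
      have h3 : αA = αA * αA * (αA + 2 * qA) + i₀ := by
        apply Subtype.ext
        have h4 : α = α * α * (α + 2 * q) + q * q * α := by
          rw [hαq]
          ring
        rw [Subring.coe_add, Subring.coe_mul, Subring.coe_mul, Subring.coe_add, Subring.coe_mul, hi₀']
        exact h4
      rw [h3]
      exact Ideal.add_mem _ (Ideal.mul_mem_right _ _ (Ideal.mul_mem_mul hαa hαk)) hi₀
  have hmap : I.map (algebraMap A B) = a := by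
    apply le_antisymm
    · rw [Ideal.map_le_iff_le_comap]
    · intro x hx
      have h2 : x = x * (αA : B) + ((⟨q * x, hC.sub _ (P.mul_mem_right x hqP)⟩ : A) : B) := by
        change x = x * α + q * x
        rw [hαq]
        ring
      rw [h2]
      apply Ideal.add_mem
      · exact Ideal.mul_mem_left _ _ (Ideal.mem_map_of_mem (algebraMap A B) (show αA ∈ I from hαa))
      · exact Ideal.mem_map_of_mem (algebraMap A B)
          (show (⟨q * x, hC.sub _ (P.mul_mem_right x hqP)⟩ : A) ∈ I from a.mul_mem_left q hx)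
  obtain ⟨u, hu⟩ := unit_of_mul I Ik αA (fun h => hα0 (congrArg (fun a : A => (a : B)) h)) hprod
  refine ⟨ClassGroup.mk (FractionRing A) u, ?_⟩
  rw [ClassGroup.extendedHom_mk, ClassGroup.mk_eq_mk_of_coe_ideal (I' := a) (J' := a₀) (by
    rw [Units.coe_map]
    change FractionalIdeal.extendedHom (FractionRing B) B (u : FractionalIdeal A⁰ (FractionRing A)) = _
    rw [hu, FractionalIdeal.extendedHom_coeIdeal_eq_map, hmap]) hV]
  exact ⟨x₀, w₀, hx₀, hw0, ha.symm⟩

end order

end Pool.Agent.H482.QO
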