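import Mathlib
import Pool.Agent.H482.QO.Q8

/-!
Half-factorial orders.
-/

set_option autoImplicit false

namespace Pool.Agent.H482.QO

/-- every nonzero nonunit is a product of irreducible elements, and the number of the factors is the
same in any two such products -/
def HalfFactorial (R : Type*) [CommRing R] : Prop :=
  (∀ a : R, a ≠ 0 → ¬ IsUnit a → ∃ s : Multiset R, (∀ b ∈ s, Irreducible b) ∧ s.prod = a) ∧
  ∀ s t : Multiset R, (∀ b ∈ s, Irreducible b) → (∀ b ∈ t, Irreducible b) → s.prod = t.prod →
    s.card = t.card

section order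

variable {B : Type*} [CommRing B] [IsDomain B] (A : Subring B) (P : Ideal B)

omit [IsDomain B] in
/-- the complement of `P` in the order is closed under division -/
theorem mem_of_mul (hC : Cnd A P) (a b : B) (ha : a ∈ A) (haP : a ∉ P) (hab : a * b ∈ A) : b ∈ A := by
  obtain ⟨a', ha', hq⟩ := hC.inv a ha haP
  have h1 : b = (a * b) * a' - b * (a * a' - 1) := by ring
  rw [h1]
  exact A.sub_mem (A.mul_mem hab ha') (hC.sub _ (P.mul_mem_left b hq))

theorem isUnit_iff (hC : Cnd A P) (a : A) : IsUnit a ↔ IsUnit (a : B) := by
  constructor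
  · intro h
    exact h.map A.subtype
  · intro h
    obtain ⟨b, hb⟩ := h.exists_right_inv
    have haP : (a : B) ∉ P := by
      intro h'
      apply hC.ne
      rw [← hb]
      exact P.mul_mem_right b h'
    have hbA : b ∈ A := mem_of_mul A P hC a b a.2 haP (by rw [hb]; exact A.one_mem)
    exact IsUnit.of_mul_eq_one (⟨b, hbA⟩ : A) (Subtype.ext hb)

omit [IsDomain B] in
theorem unit_notMem (hC : Cnd A P) (u : Bˣ) : (u : B) ∉ P := by
  intro h
  apply hC.ne
  have := P.mul_mem_left ((u⁻¹ : Bˣ) : B) h
  rwa [Units.inv_mul] at this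

/-- splitting factorisations -/
theorem split (hC : Cnd A P) (hP : P.IsPrime) (hu : ∀ x : B, x ∉ P → ∃ u : Bˣ, (u : B) * x ∈ A)
    (r : A) (α β : B) (h : (r : B) = α * β) :
    ∃ α' β' : A, r = α' * β' ∧ Associated (α' : B) α ∧ Associated (β' : B) β := by
  have key : ∀ (u : Bˣ) (x y : B), (hx : (u : B) * x ∈ A) → (hy : ((u⁻¹ : Bˣ) : B) * y ∈ A) →
      (r : B) = x * y → ∃ α' β' : A, r = α' * β' ∧ Associated (α' : B) x ∧ Associated (β' : B) y := by
    intro u x y hx hy hr
    refine ⟨⟨_, hx⟩, ⟨_, hy⟩, ?_, ?_, ?_⟩
    · apply Subtype.ext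
      rw [Subring.coe_mul, hr]
      have := Units.mul_inv u
      linear_combination (-x * y) * this
    · exact ⟨u⁻¹, by
        change (u : B) * x * ((u⁻¹ : Bˣ) : B) = x
        have := Units.mul_inv u
        linear_combination x * this⟩
    · exact ⟨u, by
        change ((u⁻¹ : Bˣ) : B) * y * (u : B) = y
        have := Units.mul_inv u
        linear_combination y * this⟩
  by_cases hα : α ∈ P
  · by_cases hβ : β ∈ P
    · exact key 1 α β (by rw [Units.val_one, one_mul]; exact hC.sub α hα)
        (by rw [inv_one, Units.val_one, one_mul]; exact hC.sub β hβ) h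
    · obtain ⟨u, huβ⟩ := hu β hβ
      obtain ⟨β', α', h1, h2, h3⟩ := key u β α huβ (hC.sub _ (P.mul_mem_left _ hα)) (by rw [h, mul_comm])
      exact ⟨α', β', by rw [h1, mul_comm], h3, h2⟩
  · obtain ⟨u, huα⟩ := hu α hα
    by_cases hβ : β ∈ P
    · exact key u α β huα (hC.sub _ (P.mul_mem_left _ hβ)) h
    · refine key u α β huα ?_ h
      have huαP : (u : B) * α ∉ P := by
        intro h'
        rcases hP.mem_or_mem h' with h'' | h''
        · exact unit_notMem A P hC u h''
        · exact hα h''
      apply mem_of_mul A P hC _ _ huα huαP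
      have h1 : (u : B) * α * (((u⁻¹ : Bˣ) : B) * β) = r := by
        rw [h]
        have := Units.mul_inv u
        linear_combination (α * β) * this
      rw [h1]
      exact r.2

theorem irreducible_iff (hC : Cnd A P) (hP : P.IsPrime)
    (hu : ∀ x : B, x ∉ P → ∃ u : Bˣ, (u : B) * x ∈ A) (r : A) : Irreducible r ↔ Irreducible (r : B) := by
  constructor
  · intro h
    refine ⟨fun h' => h.not_isUnit ((isUnit_iff A P hC r).2 h'), ?_⟩
    intro α β hr
    obtain ⟨α', β', h1, h2, h3⟩ := split A P hC hP hu r α β hr
    rcases h.isUnit_or_isUnit h1 with h4 | h4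
    · left
      exact h2.isUnit ((isUnit_iff A P hC _).1 h4)
    · right
      exact h3.isUnit ((isUnit_iff A P hC _).1 h4)
  · intro h
    refine ⟨fun h' => h.not_isUnit ((isUnit_iff A P hC r).1 h'), ?_⟩
    intro a b hr
    have h1 : (r : B) = (a : B) * (b : B) := by rw [hr, Subring.coe_mul]
    rcases h.isUnit_or_isUnit h1 with h4 | h4
    · exact Or.inl ((isUnit_iff A P hC _).2 h4)
    · exact Or.inr ((isUnit_iff A P hC _).2 h4)

theorem factors_down (hC : Cnd A P) (hP : P.IsPrime) (hu : ∀ x : B, x ∉ P → ∃ u : Bˣ, (u : B) * x ∈ A) :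
    ∀ s : Multiset B, (∀ b ∈ s, Irreducible b) → s ≠ 0 → ∀ r : A,
        Associated (r : B) s.prod → ∃ t : Multiset A, (∀ b ∈ t, Irreducible b) ∧ t.prod = r ∧
          t.card = s.card := by
  have hirr := irreducible_iff A P hC hP hu
  intro s
  induction s using Multiset.induction_on with
  | empty => intro _ h; exact absurd rfl h
  | cons b s ih =>
    intro hs _ r hr
    have hb : Irreducible b := hs b (Multiset.mem_cons_self b s)
    by_cases hs0 : s = 0
    · refine ⟨{r}, ?_, Multiset.prod_singleton r, by rw [hs0]; rfl⟩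
      intro c hc
      rw [Multiset.mem_singleton.1 hc, hirr]
      rw [hs0, Multiset.prod_cons, Multiset.prod_zero, mul_one] at hr
      exact hr.symm.irreducible hb
    · obtain ⟨u, hu'⟩ := hr.symm
      rw [Multiset.prod_cons] at hu'
      obtain ⟨α', β', h1, h2, h3⟩ := split A P hC hP hu r (b * u) s.prod (by
        rw [← hu']
        ring)
      obtain ⟨t, ht1, ht2, ht3⟩ := ih (fun c hc => hs c (Multiset.mem_cons_of_mem hc)) hs0 β' h3
      refine ⟨α' ::ₘ t, ?_, by rw [Multiset.prod_cons, ht2, ← h1],
        by rw [Multiset.card_cons, Multiset.card_cons, ht3]⟩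
      intro c hc
      rcases Multiset.mem_cons.1 hc with rfl | hc
      · rw [hirr]
        apply h2.symm.irreducible
        exact (associated_mul_unit_right b (u : B) u.isUnit).irreducible hb
      · exact ht1 c hc

theorem halfFactorial_iff (hC : Cnd A P) (hP : P.IsPrime)
    (hu : ∀ x : B, ∃ u : Bˣ, (u : B) * x ∈ A) : HalfFactorial A ↔ HalfFactorial B := by
  have hu0 : ∀ x : B, x ∉ P → ∃ u : Bˣ, (u : B) * x ∈ A := fun x _ => hu x
  have hirr := irreducible_iff A P hC hP hu0
  have hmap : ∀ w : Multiset A, (w.map (fun a : A => (a : B))).prod = ((w.prod : A) : B) := by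
    intro w
    exact (map_multiset_prod A.subtype w).symm
  have hmi : ∀ w : Multiset A, (∀ b ∈ w, Irreducible b) → ∀ x ∈ w.map (fun a : A => (a : B)),
      Irreducible x := by
    intro w hw x hx
    obtain ⟨a, ha, rfl⟩ := Multiset.mem_map.1 hx
    exact (hirr a).1 (hw a ha)
  constructor
  · rintro ⟨hA1, hA2⟩
    constructor
    · intro x hx0 hxu
      obtain ⟨u, hux⟩ := hu x
      obtain ⟨s, hs1, hs2⟩ := hA1 ⟨_, hux⟩ (by
        intro h
        have h1 := congrArg (fun a : A => (a : B)) h
        simp only [ZeroMemClass.coe_zero] at h1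
        rcases mul_eq_zero.1 h1 with h2 | h2
        · exact u.ne_zero h2
        · exact hx0 h2) (by
        intro h
        rw [isUnit_iff A P hC] at h
        apply hxu
        exact isUnit_of_mul_isUnit_right h)
      have h1 := hmap s
      rw [hs2] at h1
      simp only at h1
      induction s using Multiset.induction_on with
      | empty =>
        exfalso
        rw [Multiset.map_zero, Multiset.prod_zero] at h1
        apply hxu
        exact IsUnit.of_mul_eq_one (u : B) (by rw [mul_comm]; exact h1.symm)
      | cons a s _ =>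
        rw [Multiset.map_cons, Multiset.prod_cons] at h1
        refine ⟨(((u⁻¹ : Bˣ) : B) * (a : B)) ::ₘ s.map (fun a : A => (a : B)), ?_, ?_⟩
        · intro b hb
          rcases Multiset.mem_cons.1 hb with rfl | hb
          · rw [irreducible_units_mul]
            exact (hirr a).1 (hs1 a (Multiset.mem_cons_self _ _))
          · exact hmi s (fun b hb => hs1 b (Multiset.mem_cons_of_mem hb)) b hb
        · rw [Multiset.prod_cons, mul_assoc, h1, ← mul_assoc, Units.inv_mul, one_mul]
    · -- lengths
      have lift : ∀ s : Multiset B, (∀ b ∈ s, Irreducible b) → ∃ t : Multiset A,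
          (∀ b ∈ t, Irreducible b) ∧ t.card = s.card ∧ Associated ((t.prod : A) : B) s.prod := by
        intro s
        induction s using Multiset.induction_on with
        | empty => intro _; exact ⟨0, by simp, rfl, by simp⟩
        | cons b s ih =>
          intro hs
          obtain ⟨t, ht1, ht2, ht3⟩ := ih (fun c hc => hs c (Multiset.mem_cons_of_mem hc))
          obtain ⟨u, hub⟩ := hu b
          refine ⟨⟨_, hub⟩ ::ₘ t, ?_, by rw [Multiset.card_cons, Multiset.card_cons, ht2], ?_⟩
          · intro c hc
            rcases Multiset.mem_cons.1 hc with rfl | hc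
            · rw [hirr, irreducible_units_mul]
              exact hs b (Multiset.mem_cons_self _ _)
            · exact ht1 c hc
          · rw [Multiset.prod_cons, Multiset.prod_cons, Subring.coe_mul]
            exact Associated.mul_mul (associated_unit_mul_left b (u : B) u.isUnit) ht3
      intro s t hs ht hst
      obtain ⟨s', hs1, hs2, hs3⟩ := lift s hs
      obtain ⟨t', ht1, ht2, ht3⟩ := lift t ht
      rw [← hs2, ← ht2]
      have h1 : Associated ((t'.prod : A) : B) ((s'.prod : A) : B) := by
        refine ht3.trans ?_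
        rw [← hst]
        exact hs3.symm
      by_cases hs0 : s = 0
      · -- both empty
        have h2 : s' = 0 := by
          rw [← Multiset.card_eq_zero, hs2, hs0, Multiset.card_zero]
        have h3 : t' = 0 := by
          by_contra h4
          obtain ⟨b, hb⟩ := Multiset.exists_mem_of_ne_zero h4
          have h5 : (b : A) ∣ t'.prod := Multiset.dvd_prod hb
          rw [h2, Multiset.prod_zero] at h1
          have h6 : IsUnit ((t'.prod : A) : B) := by
            rw [Subring.coe_one] at h1
            exact h1.symm.isUnit isUnit_one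
          rw [← isUnit_iff A P hC] at h6
          exact (ht1 b hb).not_isUnit (isUnit_of_dvd_unit h5 h6)
        rw [h2, h3]
      · have hs'0 : s' ≠ 0 := by
          intro h
          apply hs0
          rw [← Multiset.card_eq_zero, ← hs2, h, Multiset.card_zero]
        obtain ⟨r, hr1, hr2, hr3⟩ := factors_down A P hC hP hu0 (s'.map (fun a : A => (a : B)))
          (hmi s' hs1) (by
            intro h
            apply hs'0
            rwa [Multiset.map_eq_zero] at h) (t'.prod) (by rw [hmap]; exact h1)
        rw [Multiset.card_map] at hr3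
        rw [← hr3]
        exact hA2 r t' hr1 ht1 hr2
  · rintro ⟨hB1, hB2⟩
    constructor
    · intro a ha0 hau
      have ha0' : (a : B) ≠ 0 := fun h => ha0 (Subtype.ext h)
      have hau' : ¬ IsUnit (a : B) := by rwa [← isUnit_iff A P hC]
      obtain ⟨s, hs1, hs2⟩ := hB1 (a : B) ha0' hau'
      have hs0 : s ≠ 0 := by
        rintro rfl
        rw [Multiset.prod_zero] at hs2
        exact hau' (hs2 ▸ isUnit_one)
      obtain ⟨t, ht1, ht2, _⟩ := factors_down A P hC hP hu0 s hs1 hs0 a (by rw [hs2])
      exact ⟨t, ht1, ht2⟩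
    · intro s t hs ht hst
      have h3 := hB2 (s.map (fun a : A => (a : B))) (t.map (fun a : A => (a : B))) (hmi s hs) (hmi t ht)
        (by rw [hmap, hmap, hst])
      rwa [Multiset.card_map, Multiset.card_map] at h3

/-- unique factorisation domains are half-factorial -/
theorem halfFactorial_of_ufm [UniqueFactorizationMonoid B] : HalfFactorial B := by
  constructor
  · intro a ha0 hau
    obtain ⟨s, hs1, hs2⟩ := WfDvdMonoid.exists_factors a ha0
    obtain ⟨u, hu⟩ := hs2
    induction s using Multiset.induction_on with
    | empty =>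
      exfalso
      rw [Multiset.prod_zero, one_mul] at hu
      exact hau (hu ▸ u.isUnit)
    | cons b s _ =>
      rw [Multiset.prod_cons] at hu
      refine ⟨(b * (u : B)) ::ₘ s, ?_, by rw [Multiset.prod_cons, ← hu]; ring⟩
      intro c hc
      rcases Multiset.mem_cons.1 hc with rfl | hc
      · rw [irreducible_mul_units]
        exact hs1 b (Multiset.mem_cons_self _ _)
      · exact hs1 c (Multiset.mem_cons_of_mem hc)
  · intro s t hs ht hst
    exact Multiset.card_eq_card_of_rel (UniqueFactorizationMonoid.factors_unique hs ht (by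
      rw [hst]
      exact Associated.refl _))

end order

end Pool.Agent.H482.QO
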