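import Mathlib
import Pool.Agent.H482.QO.Q9
import Pool.Agent.H482.QO.Q10

/-!
Orders of prime conductor in real quadratic fields.
-/

set_option autoImplicit false

open NumberField

namespace Pool.Agent.H482.QO

section nf

variable {K : Type*} [Field K] [NumberField K]

/-- a maximal ideal over `p` -/
theorem exists_over (p : ℕ) (hp : p.Prime) : ∃ Q : Ideal (𝓞 K), Q.IsMaximal ∧
    ∀ n : ℤ, (n : 𝓞 K) ∈ Q ↔ (p : ℤ) ∣ n := by
  have hpp : Prime (p : ℤ) := Nat.prime_iff_prime_int.1 hp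
  have hmax : (Ideal.span {(p : ℤ)}).IsMaximal :=
    PrincipalIdealRing.isMaximal_of_irreducible hpp.irreducible
  obtain ⟨P, hP, hPc⟩ := Ideal.exists_ideal_over_maximal_of_isIntegral (S := 𝓞 K)
    (Ideal.span {(p : ℤ)}) (by
      rw [(RingHom.injective_iff_ker_eq_bot _).1 (FaithfulSMul.algebraMap_injective ℤ (𝓞 K))]
      exact bot_le)
  refine ⟨P, hP, ?_⟩
  intro n
  rw [← Ideal.mem_span_singleton, ← hPc, Ideal.mem_comap]
  rfl

omit [NumberField K] in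
theorem charP_quot (Q : Ideal (𝓞 K)) (p : ℕ) (h : ∀ n : ℤ, (n : 𝓞 K) ∈ Q ↔ (p : ℤ) ∣ n) :
    CharP (𝓞 K ⧸ Q) p := by
  constructor
  intro n
  have h1 : ((n : ℕ) : 𝓞 K ⧸ Q) = Ideal.Quotient.mk Q ((n : ℤ) : 𝓞 K) := by
    rw [map_intCast, Int.cast_natCast]
  rw [h1, Ideal.Quotient.eq_zero_iff_mem, h]
  exact Int.natCast_dvd_natCast

theorem span_eq (hK : Module.finrank ℚ K = 2) (p : ℕ) (hp : p.Prime) (hp4 : p % 4 = 3) (d : ℕ)
    (s : 𝓞 K) (hs : s ^ 2 = d) (hj : jacobiSym d p = -1) (Q : Ideal (𝓞 K)) (hQ : Q.IsMaximal)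
    (hQp : ∀ n : ℤ, (n : 𝓞 K) ∈ Q ↔ (p : ℤ) ∣ n) :
    Q = Ideal.span {(p : 𝓞 K)} ∧ Nat.card (𝓞 K ⧸ Q) = p ^ 2 := by
  have : Fact p.Prime := ⟨hp⟩
  have hcN : ∀ I : Ideal (𝓞 K), Nat.card (𝓞 K ⧸ I) = Ideal.absNorm I := by
    intro I
    rw [Ideal.absNorm_apply, Submodule.cardQuot_apply]
  have hN : Ideal.absNorm (Ideal.span {(p : 𝓞 K)}) = p ^ 2 := by
    rw [Ideal.absNorm_span_natCast, RingOfIntegers.rank, hK]
  have hle : Ideal.span {(p : 𝓞 K)} ≤ Q := by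
    rw [Ideal.span_singleton_le_iff_mem]
    have := (hQp p).2 dvd_rfl
    rwa [Int.cast_natCast] at this
  have h1 := Ideal.absNorm_dvd_absNorm_of_le hle
  rw [hN, Nat.dvd_prime_pow hp] at h1
  obtain ⟨j, hj2, hQj⟩ := h1
  have hfin : Finite (𝓞 K ⧸ Q) := by
    apply Nat.finite_of_card_ne_zero
    rw [hcN, hQj]
    exact pow_ne_zero _ hp.ne_zero
  let _ : Field (𝓞 K ⧸ Q) := Ideal.Quotient.field Q
  have := charP_quot Q p hQp
  have hj' : j = 2 := by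
    rcases Nat.lt_or_ge j 2 with h2 | h2
    · exfalso
      interval_cases j
      · rw [pow_zero, Ideal.absNorm_eq_one_iff] at hQj
        exact hQ.ne_top hQj
      · rw [pow_one] at hQj
        have := Fintype.ofFinite (𝓞 K ⧸ Q)
        have h3 := FiniteField.pow_card (Ideal.Quotient.mk Q s)
        rw [← Nat.card_eq_fintype_card, hcN, hQj] at h3
        have hs' : (Ideal.Quotient.mk Q s) ^ 2 = (d : 𝓞 K ⧸ Q) := by
          rw [← map_pow, hs, map_natCast]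
        rw [root_pow p hp4 d (Ideal.Quotient.mk Q s) hs' hj] at h3
        have h4 : (2 : 𝓞 K ⧸ Q) * (Ideal.Quotient.mk Q s) = 0 := by linear_combination -h3
        rcases mul_eq_zero.1 h4 with h5 | h5
        · exact two_ne (k := 𝓞 K ⧸ Q) p hp4 h5
        · rw [h5, zero_pow two_ne_zero] at hs'
          have h6 := (CharP.cast_eq_zero_iff (𝓞 K ⧸ Q) p d).1 hs'.symm
          have h7 : jacobiSym d p = 0 := by
            rw [jacobiSym.eq_zero_iff]
            refine ⟨hp.ne_zero, ?_⟩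
            rw [Int.gcd_natCast_natCast]
            intro h8
            have h9 : p ∣ Nat.gcd d p := Nat.dvd_gcd h6 dvd_rfl
            rw [h8] at h9
            exact hp.one_lt.ne' (Nat.dvd_one.1 h9)
          rw [h7] at hj
          norm_num at hj
    · exact le_antisymm hj2 h2
  rw [hj'] at hQj
  refine ⟨?_, by rw [hcN, hQj]⟩
  obtain ⟨J, hJ⟩ := Ideal.dvd_iff_le.2 hle
  have h2 := congrArg Ideal.absNorm hJ
  rw [map_mul, hN, hQj] at h2
  have h3 : Ideal.absNorm J = 1 := by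
    have h4 : 0 < p ^ 2 := pow_pos hp.pos 2
    exact Nat.eq_of_mul_eq_mul_left h4 (by rw [mul_one, ← h2])
  rw [Ideal.absNorm_eq_one_iff] at h3
  rw [hJ, h3, Ideal.mul_top]

/-- the unit -/
theorem exists_fund (d t y : ℕ) (hty : t ^ 2 + 4 = d * y ^ 2) (s : 𝓞 K) (hs : s ^ 2 = d) :
    ∃ e : (𝓞 K)ˣ, 2 * (e : 𝓞 K) = t + y * s := by
  have hsK : (algebraMap (𝓞 K) K s) ^ 2 = d := by
    rw [← map_pow, hs, map_natCast]
  have htyK : ((t : K)) ^ 2 + 4 = d * (y : K) ^ 2 := by exact_mod_cast congrArg (fun n : ℕ => (n : K)) hty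
  obtain ⟨z, hz⟩ : ∃ z : K, z = (t + y * algebraMap (𝓞 K) K s) / 2 := ⟨_, rfl⟩
  have hz2 : z ^ 2 = t * z + 1 := by
    rw [hz]
    linear_combination (y : K) ^ 2 / 4 * hsK - htyK / 4
  have hint : IsIntegral ℤ z := by
    refine ⟨Polynomial.X ^ 2 - Polynomial.C (t : ℤ) * Polynomial.X - Polynomial.C 1, ?_, ?_⟩
    · monicity!
    · rw [Polynomial.eval₂_sub, Polynomial.eval₂_sub, Polynomial.eval₂_mul, Polynomial.eval₂_pow,
        Polynomial.eval₂_X, Polynomial.eval₂_C, Polynomial.eval₂_C, map_natCast, map_one, hz2]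
      ring
  obtain ⟨e, he⟩ : ∃ e : 𝓞 K, algebraMap (𝓞 K) K e = z := ⟨⟨z, hint⟩, rfl⟩
  have he1 : 2 * e = t + y * s := by
    apply RingOfIntegers.coe_injective
    rw [map_mul, map_add, map_mul, map_natCast, map_natCast, map_ofNat, he, hz]
    ring
  have he2 : e * (e - t) = 1 := by
    apply RingOfIntegers.coe_injective
    rw [map_mul, map_sub, map_natCast, map_one, he]
    linear_combination hz2
  exact ⟨Units.mkOfMulEqOne e (e - t) he2, he1⟩

theorem unit_act (hK : Module.finrank ℚ K = 2) (p : ℕ) (hp : p.Prime) (hp4 : p % 4 = 3) (d t y : ℕ)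
    (s : 𝓞 K) (hs : s ^ 2 = d) (hj : jacobiSym d p = -1) (hty : t ^ 2 + 4 = d * y ^ 2)
    (hG : Good t p) :
    (Ideal.span {(p : 𝓞 K)}).IsMaximal ∧ (∀ n : ℤ, (n : 𝓞 K) ∈ Ideal.span {(p : 𝓞 K)} ↔ (p : ℤ) ∣ n) ∧
    ∀ x : 𝓞 K, ∃ (u : (𝓞 K)ˣ) (n : ℤ), u * x - n ∈ Ideal.span {(p : 𝓞 K)} := by
  obtain ⟨Q, hQ, hQp⟩ := exists_over (K := K) p hp
  obtain ⟨hQs, hcard⟩ := span_eq hK p hp hp4 d s hs hj Q hQ hQp
  rw [← hQs]
  refine ⟨hQ, hQp, ?_⟩
  intro x
  by_cases hx : x ∈ Q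
  · exact ⟨1, 0, by simpa using hx⟩
  have : Fact p.Prime := ⟨hp⟩
  have hfin : Finite (𝓞 K ⧸ Q) := by
    apply Nat.finite_of_card_ne_zero
    rw [hcard]
    exact pow_ne_zero _ hp.ne_zero
  let _ : Field (𝓞 K ⧸ Q) := Ideal.Quotient.field Q
  have := charP_quot Q p hQp
  have := Fintype.ofFinite (𝓞 K ⧸ Q)
  obtain ⟨e, he⟩ := exists_fund d t y hty s hs
  have hx0 : Ideal.Quotient.mk Q x ≠ 0 := by
    rw [Ne, Ideal.Quotient.eq_zero_iff_mem]
    exact hx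
  have h1 : (Ideal.Quotient.mk Q x) ^ (p ^ 2 - 1) = 1 := by
    have h2 := FiniteField.pow_card_sub_one_eq_one (Ideal.Quotient.mk Q x) hx0
    rwa [← Nat.card_eq_fintype_card, hcard] at h2
  obtain ⟨i, n, hin⟩ := exists_unit_mul p hp4 d t y (Ideal.Quotient.mk Q s)
    (Ideal.Quotient.mk Q (e : 𝓞 K)) (by rw [← map_pow, hs, map_natCast]) hj hty
    (by
      have h2 := congrArg (Ideal.Quotient.mk Q) he
      rw [map_mul, map_add, map_mul, map_natCast, map_natCast, map_ofNat] at h2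
      exact h2) hG (Ideal.Quotient.mk Q x) h1
  refine ⟨e ^ i, n, ?_⟩
  rw [← Ideal.Quotient.eq_zero_iff_mem, map_sub, map_mul, Units.val_pow_eq_pow_val, map_pow, hin,
    map_intCast, sub_self]

end nf

end Pool.Agent.H482.QO
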