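import Mathlib
import Pool.Graph.R_seed8.Y855.A6
import Pool.Agent.H482.QO.Q2

/-!
Few primes modulo which many independent units generate a small group.
-/

set_option autoImplicit false

open Finset NumberField

namespace Pool.Agent.H482.QO

open Pool.Agent.Y855 (card_dvd_le)

theorem norm_le_of_root (t : ℕ) (z : ℂ) (h : z ^ 2 = t * z + 1) : ‖z‖ ≤ t + 1 := by
  by_contra hcon
  push Not at hcon
  have h1 : ‖z‖ ^ 2 ≤ t * ‖z‖ + 1 := by
    calc ‖z‖ ^ 2 = ‖z ^ 2‖ := (norm_pow z 2).symm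
      _ = ‖(t : ℂ) * z + 1‖ := by rw [h]
      _ ≤ ‖(t : ℂ) * z‖ + ‖(1 : ℂ)‖ := norm_add_le _ _
      _ = t * ‖z‖ + 1 := by
          rw [norm_mul, norm_one, Complex.norm_natCast]
  have h2 : (0 : ℝ) ≤ t := Nat.cast_nonneg t
  nlinarith

theorem norm_inv_le_of_root (t : ℕ) (z : ℂ) (h : z ^ 2 = t * z + 1) : ‖z⁻¹‖ ≤ t + 1 := by
  have hz : z ≠ 0 := by
    rintro rfl
    norm_num at h
  have h1 : z⁻¹ ^ 2 = 1 - t * z⁻¹ := by
    field_simp
    linear_combination -h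
  by_contra hcon
  push Not at hcon
  have h2 : ‖z⁻¹‖ ^ 2 ≤ t * ‖z⁻¹‖ + 1 := by
    calc ‖z⁻¹‖ ^ 2 = ‖z⁻¹ ^ 2‖ := (norm_pow _ 2).symm
      _ = ‖1 - (t : ℂ) * z⁻¹‖ := by rw [h1]
      _ ≤ ‖(1 : ℂ)‖ + ‖(t : ℂ) * z⁻¹‖ := norm_sub_le _ _
      _ = t * ‖z⁻¹‖ + 1 := by
          rw [norm_mul, norm_one, Complex.norm_natCast]
          ring
  have h3 : (0 : ℝ) ≤ t := Nat.cast_nonneg t
  nlinarith

theorem norm_zpow_le (t H : ℕ) (htH : t + 1 ≤ H) (z : ℂ) (h : z ^ 2 = t * z + 1) (c : ℤ) (A : ℕ)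
    (hc : c.natAbs ≤ A) : ‖z ^ c‖ ≤ (H : ℝ) ^ A := by
  have hH : (1 : ℝ) ≤ H := by exact_mod_cast (by omega : 1 ≤ H)
  have htH' : ((t : ℝ) + 1) ≤ H := by exact_mod_cast htH
  have key : ‖z ^ c‖ ≤ (H : ℝ) ^ c.natAbs := by
    rcases Int.natAbs_eq c with hc' | hc'
    · rw [hc', zpow_natCast, norm_pow, Int.natAbs_natCast]
      exact pow_le_pow_left₀ (norm_nonneg _) ((norm_le_of_root t z h).trans htH') _
    · rw [hc', zpow_neg, zpow_natCast, ← inv_pow, norm_pow, Int.natAbs_neg, Int.natAbs_natCast]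
      exact pow_le_pow_left₀ (norm_nonneg _) ((norm_inv_le_of_root t z h).trans htH') _
  exact key.trans (pow_le_pow_right₀ hH hc)

section field

variable {L : Type} [Field L] [NumberField L] {ι : Type} [Fintype ι] (t : ι → ℕ)
  (u : ι → (𝓞 L)ˣ)

/-- the difference `∏ u_i ^ (c_i) - 1` -/
def Dc (c : ι → ℤ) : 𝓞 L := ((∏ i, u i ^ c i : (𝓞 L)ˣ) : 𝓞 L) - 1

theorem Dc_norm (hu : ∀ i, ((u i : 𝓞 L)) ^ 2 = t i * (u i : 𝓞 L) + 1) (H : ℕ) (hH : ∀ i, t i + 1 ≤ H)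
    (hH1 : 1 ≤ H) (A : ℕ) (c : ι → ℤ) (hc : ∀ i, (c i).natAbs ≤ A) :
    ((Algebra.norm ℤ (Dc u c)).natAbs : ℝ) ≤
      (2 * (H : ℝ) ^ (Fintype.card ι * A)) ^ (Fintype.card (L →ₐ[ℚ] ℂ)) := by
  have hH1r : (1 : ℝ) ≤ H := by exact_mod_cast hH1
  have h1 : ((Algebra.norm ℤ (Dc u c) : ℤ) : ℂ) = ∏ σ : L →ₐ[ℚ] ℂ, σ ((Dc u c : 𝓞 L) : L) := by
    rw [← Algebra.norm_eq_prod_embeddings ℚ ℂ, ← Algebra.coe_norm_int]
    simp
  have h2 : ((Algebra.norm ℤ (Dc u c)).natAbs : ℝ) = ‖((Algebra.norm ℤ (Dc u c) : ℤ) : ℂ)‖ := by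
    rw [Complex.norm_intCast, Nat.cast_natAbs]
    push_cast
    rfl
  rw [h2, h1, norm_prod]
  rw [show (2 * (H : ℝ) ^ (Fintype.card ι * A)) ^ (Fintype.card (L →ₐ[ℚ] ℂ)) =
    ∏ _σ : L →ₐ[ℚ] ℂ, (2 * (H : ℝ) ^ (Fintype.card ι * A)) by rw [prod_const, card_univ]]
  apply prod_le_prod (fun _ _ => norm_nonneg _)
  intro σ _
  have h3 : σ ((Dc u c : 𝓞 L) : L) = ∏ i, (σ ((u i : 𝓞 L) : L)) ^ (c i) - 1 := by
    unfold Dc
    have h4 : (((∏ i, u i ^ c i : (𝓞 L)ˣ) : 𝓞 L) : L) = ∏ i, (((u i : 𝓞 L) : L)) ^ (c i) := by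
      have h5 := map_prod (Units.map (algebraMap (𝓞 L) L : 𝓞 L →* L)) (fun i => u i ^ c i) univ
      have h6 := congrArg (fun w : Lˣ => (w : L)) h5
      simp only [map_zpow] at h6
      push_cast at h6
      exact h6
    rw [show ((((∏ i, u i ^ c i : (𝓞 L)ˣ) : 𝓞 L) - 1 : 𝓞 L) : L) =
      (((∏ i, u i ^ c i : (𝓞 L)ˣ) : 𝓞 L) : L) - 1 from rfl, h4, map_sub, map_prod, map_one]
    simp only [map_zpow₀]
  rw [h3]
  have h7 : ‖∏ i, (σ ((u i : 𝓞 L) : L)) ^ (c i)‖ ≤ (H : ℝ) ^ (Fintype.card ι * A) := by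
    rw [norm_prod]
    calc ∏ i, ‖(σ ((u i : 𝓞 L) : L)) ^ (c i)‖ ≤ ∏ _i : ι, (H : ℝ) ^ A := by
          apply prod_le_prod (fun _ _ => norm_nonneg _)
          intro i _
          apply norm_zpow_le (t i) H (hH i) _ _ (c i) A (hc i)
          have h8 := congrArg (fun w : 𝓞 L => σ (w : L)) (hu i)
          simp only [map_pow, map_add, map_mul, map_natCast, map_one] at h8
          exact h8
      _ = (H : ℝ) ^ (Fintype.card ι * A) := by
          rw [prod_const, card_univ, ← pow_mul, mul_comm]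
  have h8 : (1 : ℝ) ≤ (H : ℝ) ^ (Fintype.card ι * A) := one_le_pow₀ hH1r
  calc ‖∏ i, (σ ((u i : 𝓞 L) : L)) ^ (c i) - 1‖
      ≤ ‖∏ i, (σ ((u i : 𝓞 L) : L)) ^ (c i)‖ + ‖(1 : ℂ)‖ := norm_sub_le _ _
    _ ≤ _ := by rw [norm_one]; linarith

/-- the pigeonhole principle in the residue field -/
theorem exists_dvd (hu : ∀ i, ((u i : 𝓞 L)) ^ 2 = t i * (u i : 𝓞 L) + 1) (p : ℕ) (hp : p.Prime)
    (A k : ℕ) (hk : 0 < k) (hkA : k < A ^ Fintype.card ι)
    (hI : ∀ (F : Type) [Field F] [CharP F p] (e : F) (i : ι), e ^ 2 = t i * e + 1 → e ^ k = 1) :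
    ∃ c : ι → ℤ, c ≠ 0 ∧ (∀ i, (c i).natAbs ≤ A) ∧ (p : ℤ) ∣ Algebra.norm ℤ (Dc u c) := by
  classical
  have hpp : Prime (p : ℤ) := Nat.prime_iff_prime_int.1 hp
  have hmax : (Ideal.span {(p : ℤ)}).IsMaximal :=
    PrincipalIdealRing.isMaximal_of_irreducible hpp.irreducible
  obtain ⟨P, hP, hPc⟩ := Ideal.exists_ideal_over_maximal_of_isIntegral (S := 𝓞 L)
    (Ideal.span {(p : ℤ)}) (by
      rw [(RingHom.injective_iff_ker_eq_bot _).1 (FaithfulSMul.algebraMap_injective ℤ (𝓞 L))]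
      exact bot_le)
  have hPn : ∀ n : ℤ, (n : 𝓞 L) ∈ P ↔ (p : ℤ) ∣ n := by
    intro n
    rw [← Ideal.mem_span_singleton, ← hPc, Ideal.mem_comap]
    rfl
  letI : Field (𝓞 L ⧸ P) := Ideal.Quotient.field P
  obtain ⟨π, hπ⟩ : ∃ π : 𝓞 L →+* 𝓞 L ⧸ P, π = Ideal.Quotient.mk P := ⟨_, rfl⟩
  haveI : CharP (𝓞 L ⧸ P) p := by
    constructor
    intro n
    have h1 : ((n : ℕ) : 𝓞 L ⧸ P) = Ideal.Quotient.mk P ((n : ℤ) : 𝓞 L) := by
      rw [map_intCast, Int.cast_natCast]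
    rw [h1, Ideal.Quotient.eq_zero_iff_mem, hPn]
    exact Int.natCast_dvd_natCast
  have he : ∀ i, π (u i) ^ k = 1 := by
    intro i
    apply hI (𝓞 L ⧸ P) (π (u i)) i
    have h1 := congrArg π (hu i)
    simp only [map_pow, map_add, map_mul, map_natCast, map_one] at h1
    exact h1
  set F : (ι → Fin A) → 𝓞 L ⧸ P := fun a => ∏ i, π (u i) ^ (a i : ℕ) with hF
  have hmaps : Set.MapsTo F ((univ : Finset (ι → Fin A)) : Set (ι → Fin A))
      (Polynomial.nthRootsFinset k (1 : 𝓞 L ⧸ P) : Set (𝓞 L ⧸ P)) := by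
    intro a _
    rw [mem_coe, Polynomial.mem_nthRootsFinset hk]
    simp only [hF]
    rw [← prod_pow]
    apply prod_eq_one
    intro i _
    rw [← pow_mul, mul_comm, pow_mul, he i, one_pow]
  have hcard : (Polynomial.nthRootsFinset k (1 : 𝓞 L ⧸ P)).card <
      (univ : Finset (ι → Fin A)).card := by
    have h1 : (Polynomial.nthRootsFinset k (1 : 𝓞 L ⧸ P)).card ≤ k := by
      rw [Polynomial.nthRootsFinset_def]
      exact (Multiset.toFinset_card_le _).trans (Polynomial.card_nthRoots k 1)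
    have h2 : (univ : Finset (ι → Fin A)).card = A ^ Fintype.card ι := by
      rw [Finset.card_univ, Fintype.card_fun, Fintype.card_fin]
    omega
  obtain ⟨a, _, a', _, hne, heq⟩ := exists_ne_map_eq_of_card_lt_of_maps_to hcard hmaps
  refine ⟨fun i => ((a i : ℕ) : ℤ) - ((a' i : ℕ) : ℤ), ?_, ?_, ?_⟩
  · intro h0
    apply hne
    funext i
    apply Fin.ext
    have h1 := congrFun h0 i
    simp only [Pi.zero_apply] at h1
    omega
  · intro i
    have h1 := (a i).2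
    have h2 := (a' i).2
    simp only
    omega
  · set c : ι → ℤ := fun i => ((a i : ℕ) : ℤ) - ((a' i : ℕ) : ℤ) with hc
    have h1 : Dc u c ∈ P := by
      rw [← Ideal.Quotient.eq_zero_iff_mem]
      unfold Dc
      rw [map_sub, map_one, sub_eq_zero]
      have h2 : (Units.map (π : 𝓞 L →* 𝓞 L ⧸ P)) (∏ i, u i ^ c i) = 1 := by
        rw [map_prod]
        have h3 : ∏ i, (Units.map (π : 𝓞 L →* 𝓞 L ⧸ P)) (u i ^ c i) =
            (∏ i, (Units.map (π : 𝓞 L →* 𝓞 L ⧸ P)) (u i) ^ (a i : ℕ)) /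
            ∏ i, (Units.map (π : 𝓞 L →* 𝓞 L ⧸ P)) (u i) ^ (a' i : ℕ) := by
          rw [← prod_div_distrib]
          apply prod_congr rfl
          intro i _
          simp only [hc]
          rw [map_zpow, zpow_sub, zpow_natCast, zpow_natCast, div_eq_mul_inv]
        rw [h3, div_eq_one]
        ext
        push_cast
        simp only [Units.coe_map, MonoidHom.coe_coe]
        exact heq
      have h3 := congrArg (fun w : (𝓞 L ⧸ P)ˣ => (w : 𝓞 L ⧸ P)) h2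
      simp only [Units.coe_map, MonoidHom.coe_coe, Units.val_one] at h3
      rw [hπ] at h3
      exact h3
    have h2 : ((Ideal.absNorm (Ideal.span {Dc u c}) : ℕ) : 𝓞 L) ∈ P := by
      have h3 := Ideal.absNorm_mem (Ideal.span {Dc u c})
      exact (Ideal.span_singleton_le_iff_mem P).2 h1 h3
    rw [Ideal.absNorm_span_singleton] at h2
    have h3 := (hPn ((Algebra.norm ℤ (Dc u c)).natAbs : ℤ)).1 (by
      rw [Int.cast_natCast]
      exact h2)
    rwa [Int.dvd_natAbs] at h3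

/-- few primes, for units of a number field -/
theorem few_small_aux (hu2 : ∀ i, ((u i : 𝓞 L)) ^ 2 = t i * (u i : 𝓞 L) + 1)
    (hne : ∀ c : ι → ℤ, c ≠ 0 → Dc u c ≠ 0) :
    ∃ E : ℕ, ∀ (A : ℕ) (T : Finset ℕ), 1 ≤ A → (∀ p ∈ T, p.Prime ∧ ∃ k : ℕ, 0 < k ∧
      k < A ^ Fintype.card ι ∧ ∀ (F : Type) [Field F] [CharP F p] (e : F) (i : ι),
        e ^ 2 = t i * e + 1 → e ^ k = 1) → T.card ≤ (2 * A + 1) ^ Fintype.card ι * (E * A) := by
  classical
  obtain ⟨H, hH⟩ : ∃ H : ℕ, H = ∑ i, t i + 1 := ⟨_, rfl⟩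
  have hHt : ∀ i, t i + 1 ≤ H := by
    intro i
    have := single_le_sum (f := t) (fun _ _ => Nat.zero_le _) (mem_univ i)
    omega
  obtain ⟨n, hn⟩ : ∃ n : ℕ, n = Fintype.card (L →ₐ[ℚ] ℂ) := ⟨_, rfl⟩
  obtain ⟨r, hr⟩ : ∃ r : ℕ, r = Fintype.card ι := ⟨_, rfl⟩
  refine ⟨n * (1 + r * H), fun A T hA hT => ?_⟩
  rw [← hr]
  set C : Finset (ι → ℤ) := (Fintype.piFinset (fun _ => Icc (-(A : ℤ)) A)).filter (fun c => c ≠ 0)
    with hC
  have hCcard : C.card ≤ (2 * A + 1) ^ r := by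
    refine (card_filter_le _ _).trans (le_of_eq ?_)
    rw [Fintype.card_piFinset, prod_const, Int.card_Icc, Finset.card_univ, ← hr]
    congr 1
    omega
  have hsub : T ⊆ C.biUnion (fun c => T.filter (fun p : ℕ => (p : ℤ) ∣ Algebra.norm ℤ (Dc u c))) := by
    intro p hp
    obtain ⟨hpp, k, hk, hkA, hkI⟩ := hT p hp
    obtain ⟨c, hc1, hc2, hc3⟩ := exists_dvd t u hu2 p hpp A k hk hkA hkI
    rw [mem_biUnion]
    refine ⟨c, ?_, mem_filter.2 ⟨hp, hc3⟩⟩
    rw [hC, mem_filter, Fintype.mem_piFinset]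
    refine ⟨fun i => ?_, hc1⟩
    rw [mem_Icc]
    have := hc2 i
    omega
  refine (card_le_card hsub).trans (card_biUnion_le.trans ?_)
  calc ∑ c ∈ C, (T.filter (fun p : ℕ => (p : ℤ) ∣ Algebra.norm ℤ (Dc u c))).card
      ≤ ∑ _c ∈ C, n * (1 + r * H) * A := by
        apply sum_le_sum
        intro c hc
        rw [hC, mem_filter, Fintype.mem_piFinset] at hc
        have hcA : ∀ i, (c i).natAbs ≤ A := by
          intro i
          have := hc.1 i
          rw [mem_Icc] at this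
          omega
        apply card_dvd_le (Algebra.norm ℤ (Dc u c))
        · rw [Ne, Algebra.norm_eq_zero_iff]
          exact hne c hc.2
        · have h1 := Dc_norm t u hu2 H hHt (by omega) A c hcA
          rw [← hr, ← hn] at h1
          have h2 : (Algebra.norm ℤ (Dc u c)).natAbs ≤ (2 * H ^ (r * A)) ^ n := by
            exact_mod_cast h1
          refine h2.trans ?_
          have h3 : H ≤ 2 ^ H := Nat.lt_two_pow_self.le
          calc (2 * H ^ (r * A)) ^ n ≤ (2 ^ A * (2 ^ H) ^ (r * A)) ^ n := by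
                apply Nat.pow_le_pow_left
                apply Nat.mul_le_mul
                · calc 2 = 2 ^ 1 := rfl
                    _ ≤ 2 ^ A := Nat.pow_le_pow_right (by norm_num) hA
                · exact Nat.pow_le_pow_left h3 _
            _ = 2 ^ (n * (1 + r * H) * A) := by
                rw [← pow_mul, ← pow_add, ← pow_mul]
                congr 1
                ring
        · intro p hp
          rw [mem_filter] at hp
          exact ⟨(hT p hp.1).1, hp.2⟩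
    _ = C.card * (n * (1 + r * H) * A) := by rw [sum_const, smul_eq_mul]
    _ ≤ _ := Nat.mul_le_mul_right _ hCcard

/-- the units in the field generated by them -/
theorem exists_units (t : ι → ℕ) : ∃ (L : IntermediateField ℚ ℝ) (_ : NumberField L)
    (u : ι → (𝓞 L)ˣ), ∀ i, ((((u i : 𝓞 L) : L)) : ℝ) = eps (t i) := by
  classical
  set S : Set ℝ := Set.range (fun i => eps (t i)) with hS
  have hint : ∀ x ∈ S, IsIntegral ℤ x := by
    rintro x ⟨i, rfl⟩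
    refine ⟨Polynomial.X ^ 2 - Polynomial.C ((t i : ℕ) : ℤ) * Polynomial.X - 1, ?_, ?_⟩
    · monicity!
    · simp only [Polynomial.eval₂_sub, Polynomial.eval₂_pow, Polynomial.eval₂_X,
        Polynomial.eval₂_mul, Polynomial.eval₂_C, Polynomial.eval₂_one]
      have := eps_sq (t i)
      simp only [algebraMap_int_eq, eq_intCast, Int.cast_natCast]
      linarith
  have : Finite S := Set.finite_range _
  have hfd : FiniteDimensional ℚ (IntermediateField.adjoin ℚ S) :=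
    IntermediateField.finiteDimensional_adjoin fun x hx => (hint x hx).tower_top
  have hnf : NumberField (IntermediateField.adjoin ℚ S) := ⟨⟩
  refine ⟨IntermediateField.adjoin ℚ S, hnf, ?_⟩
  have hmem : ∀ i, eps (t i) ∈ IntermediateField.adjoin ℚ S := fun i =>
    IntermediateField.subset_adjoin ℚ S ⟨i, rfl⟩
  have hunit : ∀ i, ∃ w : (𝓞 (IntermediateField.adjoin ℚ S))ˣ,
      ((((w : 𝓞 (IntermediateField.adjoin ℚ S)) : IntermediateField.adjoin ℚ S)) : ℝ) = eps (t i) := by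
    intro i
    have h1 : IsIntegral ℤ (⟨eps (t i), hmem i⟩ : IntermediateField.adjoin ℚ S) := by
      have h2 := hint (eps (t i)) ⟨i, rfl⟩
      exact (isIntegral_algHom_iff ((IntermediateField.adjoin ℚ S).val.restrictScalars ℤ)
        (IntermediateField.adjoin ℚ S).val.injective).1 h2
    obtain ⟨e, he⟩ : ∃ e : 𝓞 (IntermediateField.adjoin ℚ S),
        ((e : IntermediateField.adjoin ℚ S) : ℝ) = eps (t i) := ⟨⟨⟨eps (t i), hmem i⟩, h1⟩, rfl⟩
    have h4 : e * (e - (t i : 𝓞 (IntermediateField.adjoin ℚ S))) = 1 := by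
      apply RingOfIntegers.ext
      apply Subtype.ext
      push_cast
      rw [he]
      have := eps_sq (t i)
      linear_combination this
    exact ⟨⟨e, e - (t i : 𝓞 (IntermediateField.adjoin ℚ S)), h4, by rw [mul_comm]; exact h4⟩, he⟩
  choose u hu using hunit
  exact ⟨u, hu⟩

end field

/-- few primes modulo which independent units generate a small group -/
theorem few_small {ι : Type} [Fintype ι] (t : ι → ℕ) (ht : IndU t) :
    ∃ E : ℕ, ∀ (A : ℕ) (T : Finset ℕ), 1 ≤ A → (∀ p ∈ T, p.Prime ∧ ∃ k : ℕ, 0 < k ∧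
      k < A ^ Fintype.card ι ∧ ∀ (F : Type) [Field F] [CharP F p] (e : F) (i : ι),
        e ^ 2 = t i * e + 1 → e ^ k = 1) → T.card ≤ (2 * A + 1) ^ Fintype.card ι * (E * A) := by
  classical
  obtain ⟨L, hL, u, hu⟩ := exists_units t
  have hu2 : ∀ i, ((u i : 𝓞 L)) ^ 2 = t i * (u i : 𝓞 L) + 1 := by
    intro i
    apply RingOfIntegers.ext
    apply Subtype.ext
    push_cast
    rw [hu]
    exact eps_sq (t i)
  apply few_small_aux t u hu2
  intro c hc h0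
  apply hc
  funext i
  refine ht c ?_ i
  unfold Dc at h0
  rw [sub_eq_zero] at h0
  have h1 := congrArg (fun w : 𝓞 L => ((w : L) : ℝ)) h0
  rw [← show ((((1 : 𝓞 L)) : L) : ℝ) = 1 from rfl, ← h1]
  obtain ⟨ψ, hψ⟩ : ∃ ψ : 𝓞 L →* ℝ, ∀ w : 𝓞 L, ψ w = ((w : L) : ℝ) :=
    ⟨(L.val : L →* ℝ).comp (algebraMap (𝓞 L) L : 𝓞 L →* L), fun _ => rfl⟩
  have h5 : Units.map ψ (∏ i, u i ^ c i) = ∏ i, (Units.map ψ (u i)) ^ (c i) := by
    rw [map_prod]
    simp only [map_zpow]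
  have h6 : ψ ((∏ i, u i ^ c i : (𝓞 L)ˣ) : 𝓞 L) = ∏ i, eps (t i) ^ (c i) := by
    calc ψ ((∏ i, u i ^ c i : (𝓞 L)ˣ) : 𝓞 L) = ((Units.map ψ (∏ i, u i ^ c i) : ℝˣ) : ℝ) := rfl
      _ = ((∏ i, (Units.map ψ (u i)) ^ (c i) : ℝˣ) : ℝ) := by rw [h5]
      _ = ∏ i, ((Units.map ψ (u i) : ℝˣ) : ℝ) ^ (c i) := by
          rw [Units.coe_prod]
          exact prod_congr rfl fun i _ => Units.val_zpow_eq_zpow_val _ _
      _ = _ := prod_congr rfl fun i _ => by
          rw [show ((Units.map ψ (u i) : ℝˣ) : ℝ) = ψ (u i) from rfl, hψ, hu i]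
  rw [← h6, hψ]

end Pool.Agent.H482.QO
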