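import Mathlib
import Pool.Agent.H482.QO.Q3

/-!
The exceptional primes; fields generated by square roots.
-/

set_option autoImplicit false

open Finset

namespace Pool.Agent.H482.QO

open Classical in
/-- the exceptional primes of index `r` -/
noncomputable def Exq {ι : Type} [Fintype ι] (x r : ℕ) (t : ι → ℕ) : Finset ℕ :=
  (Icc 1 x).filter (fun p => p.Prime ∧ p % 4 = 3 ∧ ∃ l : ℕ, l.Prime ∧ 3 ≤ l ∧ l ∣ p + 1 ∧
    x ^ 2 ≤ l ^ r ∧ ∃ J : Finset ι, r ≤ J.card ∧ ∀ i ∈ J, p ∣ lu (t i) ((p + 1) / l))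

theorem exq_bound {ι : Type} [Fintype ι] (t : ι → ℕ) (ht : IndU t) (r : ℕ) (hr : 2 ≤ r) :
    ∃ C : ℝ, 0 ≤ C ∧ ∀ x : ℕ, 1 ≤ x → ((Exq x r t).card : ℝ) ≤ C * (x : ℝ) ^ (1 - 1 / (r : ℝ)) := by
  classical
  have hE : ∀ J : Finset ι, ∃ E : ℕ, ∀ (A : ℕ) (T : Finset ℕ), 1 ≤ A → (∀ p ∈ T, p.Prime ∧
      ∃ k : ℕ, 0 < k ∧ k < A ^ J.card ∧ ∀ (F : Type) [Field F] [CharP F p] (e : F) (i : J),
        e ^ 2 = t i * e + 1 → e ^ k = 1) → T.card ≤ (2 * A + 1) ^ J.card * (E * A) := by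
    intro J
    have h := few_small (fun i : J => t i) (ht.comp (fun i : J => (i : ι)) Subtype.val_injective)
    rwa [Fintype.card_coe] at h
  choose E hE using hE
  refine ⟨∑ J ∈ (univ : Finset ι).powersetCard r, 5 * 11 ^ r * (E J : ℝ), by positivity,
    fun x hx => ?_⟩
  have hx1 : (1 : ℝ) ≤ x := by exact_mod_cast hx
  have hx0 : (0 : ℝ) < x := by linarith
  have hr0 : (0 : ℝ) < r := by exact_mod_cast (by omega : 0 < r)
  have hr2 : (2 : ℝ) ≤ r := by exact_mod_cast hr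
  set θ : ℝ := ((r : ℝ) - 2) / ((r : ℝ) * r) with hθ
  have hθ0 : 0 ≤ θ := div_nonneg (by linarith) (by positivity)
  set y : ℝ := (x : ℝ) ^ θ with hy
  have hy1 : 1 ≤ y := Real.one_le_rpow hx1 hθ0
  set A : ℕ := ⌊4 * y⌋₊ + 1 with hA
  have hyA : 4 * y < A := by rw [hA]; push_cast; exact Nat.lt_floor_add_one _
  have hA2 : (A : ℝ) ≤ 5 * y := by
    rw [hA]; push_cast
    have := Nat.floor_le (by linarith : 0 ≤ 4 * y)
    linarith
  have hyr : y ^ (r * r) = (x : ℝ) ^ (r - 2) := by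
    rw [hy, ← Real.rpow_natCast, ← Real.rpow_natCast, ← Real.rpow_mul hx0.le]
    congr 1
    push_cast [Nat.cast_sub hr]
    rw [hθ]
    field_simp
  have hcond : 4 ^ r * x ^ (r - 2) < A ^ (r * r) := by
    have h2 : (4 * y) ^ (r * r) < (A : ℝ) ^ (r * r) :=
      pow_lt_pow_left₀ hyA (by linarith) (by positivity)
    rw [mul_pow, hyr] at h2
    have h3 : (4 : ℝ) ^ r ≤ 4 ^ (r * r) := by
      apply pow_le_pow_right₀ (by norm_num)
      nlinarith
    have h4 : (4 : ℝ) ^ r * (x : ℝ) ^ (r - 2) < (A : ℝ) ^ (r * r) := by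
      refine lt_of_le_of_lt ?_ h2
      exact mul_le_mul_of_nonneg_right h3 (by positivity)
    exact_mod_cast h4
  set T : Finset ι → Finset ℕ := fun J => (Exq x r t).filter (fun p => p.Prime ∧
      ∃ k : ℕ, 0 < k ∧ k < A ^ J.card ∧ ∀ (F : Type) [Field F] [CharP F p] (e : F) (i : J),
        e ^ 2 = t i * e + 1 → e ^ k = 1) with hT
  have hTc : ∀ J ∈ (univ : Finset ι).powersetCard r, ((T J).card : ℝ) ≤
      5 * 11 ^ r * (E J : ℝ) * (x : ℝ) ^ (1 - 1 / (r : ℝ)) := by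
    intro J hJ
    have hJr := (mem_powersetCard.1 hJ).2
    have h1 := hE J A (T J) (by omega) (fun p hp => by
      simp only [hT] at hp
      rw [mem_filter] at hp
      exact hp.2)
    rw [hJr] at h1
    have h2 : ((T J).card : ℝ) ≤ (2 * (A : ℝ) + 1) ^ r * (E J * A) := by exact_mod_cast h1
    have h3 : (2 * (A : ℝ) + 1) ≤ 11 * y := by linarith
    have h4 : (2 * (A : ℝ) + 1) ^ r * (E J * A) ≤ (11 * y) ^ r * (E J * (5 * y)) := by
      gcongr
    have h5 : (11 * y) ^ r * ((E J : ℝ) * (5 * y)) = 5 * 11 ^ r * (E J : ℝ) * y ^ (r + 1) := by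
      rw [mul_pow, pow_succ y r]
      ring
    have h10 : y ^ (r + 1) ≤ (x : ℝ) ^ (1 - 1 / (r : ℝ)) := by
      rw [hy, ← Real.rpow_natCast, ← Real.rpow_mul hx0.le]
      apply Real.rpow_le_rpow_of_exponent_le hx1
      rw [hθ]
      push_cast
      have e : 1 - 1 / (r : ℝ) = ((r : ℝ) * r - r) / (r * r) := by field_simp
      rw [e, div_mul_eq_mul_div, div_le_div_iff_of_pos_right (by positivity)]
      nlinarith
    refine h2.trans (h4.trans ?_)
    rw [h5]
    exact mul_le_mul_of_nonneg_left h10 (by positivity)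
  have hsub : Exq x r t ⊆ ((univ : Finset ι).powersetCard r).biUnion T := by
    intro p hp
    have hp' := hp
    unfold Exq at hp
    rw [mem_filter, mem_Icc] at hp
    obtain ⟨⟨hp1, hpx⟩, hpp, hp4, l, hl, hl3, hlp, hlr, J, hJ, hJd⟩ := hp
    obtain ⟨I, hI, hIc⟩ := exists_subset_card_eq hJ
    rw [mem_biUnion]
    refine ⟨I, mem_powersetCard.2 ⟨subset_univ _, hIc⟩, ?_⟩
    simp only [hT]
    rw [mem_filter, hIc]
    obtain ⟨m, hm⟩ : ∃ m : ℕ, m = (p + 1) / l := ⟨_, rfl⟩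
    have hml : m * l = p + 1 := by rw [hm]; exact Nat.div_mul_cancel hlp
    have hm0 : 0 < m := by
      rcases Nat.eq_zero_or_pos m with h | h
      · rw [h, zero_mul] at hml
        omega
      · exact h
    have h4m : 4 ∣ m := by
      have h1 : 4 ∣ m * l := by rw [hml]; omega
      have h2 : Nat.Coprime 4 l := by
        have h3 : Nat.Coprime 2 l := (Nat.coprime_primes Nat.prime_two hl).2 (by omega)
        exact Nat.Coprime.pow_left 2 h3
      exact h2.dvd_of_dvd_mul_right h1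
    have hme : Even m := even_iff_two_dvd.2 ((by norm_num : 2 ∣ 4).trans h4m)
    refine ⟨hp', hpp, 2 * m, by omega, ?_, ?_⟩
    · have h2 : m * l ≤ 2 * x := by omega
      have h3 : (2 * m) ^ r * x ^ 2 ≤ 4 ^ r * x ^ (r - 2) * x ^ 2 := by
        calc (2 * m) ^ r * x ^ 2 ≤ (2 * m) ^ r * l ^ r := Nat.mul_le_mul_left _ hlr
          _ = (2 * (m * l)) ^ r := by rw [← mul_pow]; congr 1; ring
          _ ≤ (2 * (2 * x)) ^ r := Nat.pow_le_pow_left (Nat.mul_le_mul_left 2 h2) r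
          _ = 4 ^ r * x ^ r := by rw [← mul_pow]; congr 1; ring
          _ = 4 ^ r * x ^ (r - 2) * x ^ 2 := by
              rw [mul_assoc, ← pow_add]; congr 2; omega
      have h4 : (2 * m) ^ r ≤ 4 ^ r * x ^ (r - 2) := Nat.le_of_mul_le_mul_right h3 (by positivity)
      have h5 : (2 * m) ^ r < (A ^ r) ^ r := by
        rw [← pow_mul]
        exact lt_of_le_of_lt h4 hcond
      exact lt_of_pow_lt_pow_left₀ r (Nat.zero_le _) h5
    · intro F _ _ e i he
      apply pow_eq_one_of_dvd p (t i) m hme hm0 _ e he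
      rw [hm]
      exact hJd i (hI i.2)
  calc ((Exq x r t).card : ℝ) ≤ ((((univ : Finset ι).powersetCard r).biUnion T).card : ℝ) := by
        exact_mod_cast card_le_card hsub
    _ ≤ ∑ J ∈ (univ : Finset ι).powersetCard r, ((T J).card : ℝ) := by
        exact_mod_cast card_biUnion_le
    _ ≤ ∑ J ∈ (univ : Finset ι).powersetCard r,
          5 * 11 ^ r * (E J : ℝ) * (x : ℝ) ^ (1 - 1 / (r : ℝ)) := sum_le_sum hTc
    _ = _ := by rw [sum_mul]

/-- the numbers `u + v √D` -/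
def Fl : List ℕ → Set ℝ
  | [] => Set.range ((↑) : ℚ → ℝ)
  | D :: l => {x | ∃ u ∈ Fl l, ∃ v ∈ Fl l, x = u + v * √(D : ℝ)}

/-- a field -/
structure IsFl (S : Set ℝ) : Prop where
  rat : ∀ q : ℚ, (q : ℝ) ∈ S
  add : ∀ x ∈ S, ∀ y ∈ S, x + y ∈ S
  mul : ∀ x ∈ S, ∀ y ∈ S, x * y ∈ S
  inv : ∀ x ∈ S, x⁻¹ ∈ S

theorem IsFl.neg {S : Set ℝ} (h : IsFl S) (x : ℝ) (hx : x ∈ S) : -x ∈ S := by
  have h1 := h.mul _ (h.rat (-1)) x hx
  rw [Rat.cast_neg, Rat.cast_one, neg_one_mul] at h1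
  exact h1

theorem IsFl.sub {S : Set ℝ} (h : IsFl S) (x y : ℝ) (hx : x ∈ S) (hy : y ∈ S) : x - y ∈ S := by
  rw [sub_eq_add_neg]
  exact h.add _ hx _ (h.neg y hy)

theorem isFl : ∀ l : List ℕ, IsFl (Fl l)
  | [] => by
    refine ⟨fun q => ⟨q, rfl⟩, ?_, ?_, ?_⟩
    · rintro _ ⟨a, rfl⟩ _ ⟨b, rfl⟩
      exact ⟨a + b, by push_cast; rfl⟩
    · rintro _ ⟨a, rfl⟩ _ ⟨b, rfl⟩
      exact ⟨a * b, by push_cast; rfl⟩
    · rintro _ ⟨a, rfl⟩
      exact ⟨a⁻¹, by push_cast; rfl⟩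
  | D :: l => by
    have ih := isFl l
    have hs : √(D : ℝ) * √(D : ℝ) = ((D : ℚ) : ℝ) := by
      rw [Real.mul_self_sqrt (Nat.cast_nonneg D)]
      push_cast
      rfl
    have h0 : (0 : ℝ) ∈ Fl l := by
      have := ih.rat 0
      rwa [Rat.cast_zero] at this
    refine ⟨fun q => ⟨q, ih.rat q, 0, h0, by rw [zero_mul, add_zero]⟩, ?_, ?_, ?_⟩
    · rintro _ ⟨a, ha, b, hb, rfl⟩ _ ⟨a', ha', b', hb', rfl⟩
      exact ⟨a + a', ih.add _ ha _ ha', b + b', ih.add _ hb _ hb', by ring⟩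
    · rintro _ ⟨a, ha, b, hb, rfl⟩ _ ⟨a', ha', b', hb', rfl⟩
      refine ⟨a * a' + b * b' * ((D : ℚ) : ℝ), ih.add _ (ih.mul _ ha _ ha') _
        (ih.mul _ (ih.mul _ hb _ hb') _ (ih.rat _)), a * b' + a' * b,
        ih.add _ (ih.mul _ ha _ hb') _ (ih.mul _ ha' _ hb), ?_⟩
      rw [← hs]
      ring
    · rintro _ ⟨a, ha, b, hb, rfl⟩
      by_cases hD : √(D : ℝ) ∈ Fl l
      · exact ⟨(a + b * √(D : ℝ))⁻¹, ih.inv _ (ih.add _ ha _ (ih.mul _ hb _ hD)), 0, h0,
          by rw [zero_mul, add_zero]⟩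
      · by_cases hb0 : b = 0
        · exact ⟨a⁻¹, ih.inv _ ha, 0, h0, by rw [hb0, zero_mul, add_zero, add_zero]⟩
        · have h1 : a - b * √(D : ℝ) ≠ 0 := by
            intro h
            apply hD
            have h2 : √(D : ℝ) = a * b⁻¹ := by
              field_simp
              linarith
            rw [h2]
            exact ih.mul _ ha _ (ih.inv _ hb)
          have h1' : a + b * √(D : ℝ) ≠ 0 := by
            intro h
            apply hD
            have h2 : √(D : ℝ) = -(a * b⁻¹) := by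
              field_simp
              linarith
            rw [h2]
            exact ih.neg _ (ih.mul _ ha _ (ih.inv _ hb))
          set N : ℝ := a * a - b * b * ((D : ℚ) : ℝ) with hN
          have hN' : N = (a + b * √(D : ℝ)) * (a - b * √(D : ℝ)) := by
            rw [hN, ← hs]
            ring
          have hNm : N⁻¹ ∈ Fl l := ih.inv _ (ih.sub _ _ (ih.mul _ ha _ ha)
            (ih.mul _ (ih.mul _ hb _ hb) _ (ih.rat _)))
          refine ⟨a * N⁻¹, ih.mul _ ha _ hNm, -(b * N⁻¹), ih.neg _ (ih.mul _ hb _ hNm), ?_⟩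
          rw [hN', mul_inv]
          field_simp
          ring

/-- the squares in these fields -/
theorem kummer : ∀ (l : List ℕ) (a : ℚ), (∃ x ∈ Fl l, x ^ 2 = (a : ℝ)) →
    ∃ l' : List ℕ, l'.Sublist l ∧ ∃ y : ℚ, a * (l'.prod : ℕ) = y ^ 2
  | [], a => by
    rintro ⟨_, ⟨y, rfl⟩, h⟩
    refine ⟨[], List.Sublist.refl _, y, ?_⟩
    have h1 : y ^ 2 = a := by exact_mod_cast h
    rw [h1, List.prod_nil, Nat.cast_one, mul_one]
  | D :: l, a => by
    rintro ⟨_, ⟨u, hu, v, hv, rfl⟩, h⟩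
    have ih := isFl l
    have hs : √(D : ℝ) * √(D : ℝ) = ((D : ℚ) : ℝ) := by
      rw [Real.mul_self_sqrt (Nat.cast_nonneg D)]
      push_cast
      rfl
    by_cases hD : √(D : ℝ) ∈ Fl l
    · obtain ⟨l', h1, h2⟩ := kummer l a ⟨_, ih.add _ hu _ (ih.mul _ hv _ hD), h⟩
      exact ⟨l', h1.cons D, h2⟩
    · by_cases huv : u * v = 0
      · rcases mul_eq_zero.1 huv with h0 | h0
        · -- `u = 0`
          obtain ⟨l', h1, y, h2⟩ := kummer l (a * D) ⟨v * ((D : ℚ) : ℝ), ih.mul _ hv _ (ih.rat _), by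
            rw [h0] at h
            have h3 : v ^ 2 * ((D : ℚ) : ℝ) = a := by
              rw [← hs, ← h]
              ring
            push_cast at h3 ⊢
            rw [← h3]
            ring⟩
          refine ⟨D :: l', h1.cons_cons D, y, ?_⟩
          rw [List.prod_cons, ← h2]
          push_cast
          ring
        · obtain ⟨l', h1, h2⟩ := kummer l a ⟨u, hu, by
            rw [h0, zero_mul, add_zero] at h
            exact h⟩
          exact ⟨l', h1.cons D, h2⟩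
      · exfalso
        apply hD
        have h1 : √(D : ℝ) = (a - u * u - v * v * ((D : ℚ) : ℝ)) * (((2 : ℚ) : ℝ) * (u * v))⁻¹ := by
          have h2 : ((2 : ℚ) : ℝ) * (u * v) ≠ 0 := by
            apply mul_ne_zero _ huv
            norm_num
          rw [← div_eq_mul_inv, eq_div_iff h2, ← h, ← hs]
          push_cast
          ring
        rw [h1]
        exact ih.mul _ (ih.sub _ _ (ih.sub _ _ (ih.rat a) (ih.mul _ hu _ hu))
          (ih.mul _ (ih.mul _ hv _ hv) _ (ih.rat _))) _ (ih.inv _ (ih.mul _ (ih.rat 2) _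
            (ih.mul _ hu _ hv)))

theorem Fl_cons (D : ℕ) (l : List ℕ) (x : ℝ) (hx : x ∈ Fl l) : x ∈ Fl (D :: l) := by
  have h0 : (0 : ℝ) ∈ Fl l := by
    have := (isFl l).rat 0
    rwa [Rat.cast_zero] at this
  exact ⟨x, hx, 0, h0, by rw [zero_mul, add_zero]⟩

theorem sqrt_mem : ∀ (l : List ℕ) (D : ℕ), D ∈ l → √(D : ℝ) ∈ Fl l
  | D' :: l, D, h => by
    rcases List.mem_cons.1 h with rfl | h
    · have ih := isFl l
      have h0 := ih.rat 0
      have h1 := ih.rat 1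
      rw [Rat.cast_zero] at h0
      rw [Rat.cast_one] at h1
      exact ⟨0, h0, 1, h1, by rw [zero_add, one_mul]⟩
    · exact Fl_cons D' l _ (sqrt_mem l D h)

theorem IsFl.zpow {S : Set ℝ} (h : IsFl S) (x : ℝ) (hx : x ∈ S) (c : ℤ) : x ^ c ∈ S := by
  have key : ∀ n : ℕ, x ^ n ∈ S := by
    intro n
    induction n with
    | zero =>
      have := h.rat 1
      rwa [Rat.cast_one, ← pow_zero x] at this
    | succ n ih =>
      rw [pow_succ]
      exact h.mul _ ih _ hx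
  rcases Int.eq_nat_or_neg c with ⟨n, rfl | rfl⟩
  · rw [zpow_natCast]
    exact key n
  · rw [zpow_neg, zpow_natCast]
    exact h.inv _ (key n)

theorem IsFl.prod {S : Set ℝ} (h : IsFl S) {ι : Type*} (s : Finset ι) (f : ι → ℝ)
    (hf : ∀ i ∈ s, f i ∈ S) : ∏ i ∈ s, f i ∈ S := by
  classical
  induction s using Finset.induction_on with
  | empty =>
    have := h.rat 1
    rwa [Rat.cast_one] at this
  | insert i s hi ih =>
    rw [prod_insert hi]
    exact h.mul _ (hf i (mem_insert_self _ _)) _ (ih fun j hj => hf j (mem_insert_of_mem hj))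

/-- adding a unit whose field has a new ramified prime preserves independence -/
theorem IndU_cons {k : ℕ} (b : Fin (k + 1) → ℕ) (h1 : ∀ i, 1 ≤ b i)
    (hb : IndU (fun i : Fin k => b i.succ)) (l : ℕ) (hl : l.Prime)
    (hl0 : Odd (((b 0) ^ 2 + 4).factorization l)) (hli : ∀ i : Fin k, ¬ l ∣ (b i.succ) ^ 2 + 4) :
    IndU b := by
  have hfact : Fact l.Prime := ⟨hl⟩
  intro c hc
  obtain ⟨W, hW⟩ : ∃ W : List ℕ, W = List.ofFn (fun i : Fin k => (b i.succ) ^ 2 + 4) := ⟨_, rfl⟩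
  have hF := isFl W
  have heps : ∀ i : Fin k, eps (b i.succ) ∈ Fl W := by
    intro i
    have h2 : √(((b i.succ) ^ 2 + 4 : ℕ) : ℝ) ∈ Fl W := by
      apply sqrt_mem
      rw [hW, List.mem_ofFn]
      exact ⟨i, rfl⟩
    have h3 : eps (b i.succ) = ((1 / 2 : ℚ) : ℝ) * (((b i.succ : ℚ) : ℝ) +
        √(((b i.succ) ^ 2 + 4 : ℕ) : ℝ)) := by
      unfold eps
      push_cast
      ring
    rw [h3]
    exact hF.mul _ (hF.rat _) _ (hF.add _ (hF.rat _) _ h2)
  rw [Fin.prod_univ_succ] at hc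
  have hc0 : c 0 = 0 := by
    by_contra hne
    have h2 : eps (b 0) ^ (c 0) ∈ Fl W := by
      have h3 : ∏ i : Fin k, eps (b i.succ) ^ (c i.succ) ∈ Fl W :=
        hF.prod _ _ fun i _ => hF.zpow _ (heps i) _
      have h4 : ∏ i : Fin k, eps (b i.succ) ^ (c i.succ) ≠ 0 := by
        rw [prod_ne_zero_iff]
        exact fun i _ => zpow_ne_zero _ (eps_pos _).ne'
      rw [eq_inv_of_mul_eq_one_left hc]
      exact hF.inv _ h3
    have h3 : eps (b 0) ^ (c 0).natAbs ∈ Fl W := by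
      rcases Int.natAbs_eq (c 0) with h | h
      · rw [h, zpow_natCast] at h2
        exact h2
      · rw [h, zpow_neg, zpow_natCast] at h2
        have := hF.inv _ h2
        rwa [inv_inv] at this
    obtain ⟨n, hn⟩ : ∃ n, (c 0).natAbs = n + 1 := ⟨(c 0).natAbs - 1, by omega⟩
    rw [hn, pow_lu (b 0) _ (eps_sq (b 0)) n] at h3
    have hlu : (1 : ℝ) ≤ lu (b 0) (n + 1) := by exact_mod_cast lu_pos (b 0) (h1 0) n
    have h4 : eps (b 0) ∈ Fl W := by
      have h5 := hF.mul _ (hF.sub _ _ h3 (hF.rat (lu (b 0) n))) _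
        (hF.inv _ (hF.rat (lu (b 0) (n + 1))))
      convert h5 using 1
      push_cast
      field_simp
      ring
    have h5 : √(((b 0) ^ 2 + 4 : ℕ) : ℝ) ∈ Fl W := by
      have h6 := hF.sub _ _ (hF.mul _ (hF.rat 2) _ h4) (hF.rat (b 0))
      convert h6 using 1
      unfold eps
      push_cast
      ring
    obtain ⟨l', hl', y, hy⟩ := kummer W (((b 0) ^ 2 + 4 : ℕ) : ℚ) ⟨_, h5, by
      rw [Real.sq_sqrt (Nat.cast_nonneg _)]
      push_cast
      rfl⟩
    -- the valuation at `l`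
    have hprod : ¬ l ∣ l'.prod := by
      intro h
      obtain ⟨D, hD, hlD⟩ := (Prime.dvd_prod_iff hl.prime).1 h
      have h6 := hl'.subset hD
      rw [hW, List.mem_ofFn] at h6
      obtain ⟨i, rfl⟩ := h6
      exact hli i hlD
    have hp0 : l'.prod ≠ 0 := by
      intro h
      rw [h] at hprod
      exact hprod (dvd_zero l)
    have hy0 : y ≠ 0 := by
      rintro rfl
      rw [zero_pow two_ne_zero] at hy
      rcases mul_eq_zero.1 hy with h | h
      · have h6 : ((b 0) ^ 2 + 4 : ℕ) = 0 := by exact_mod_cast h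
        omega
      · exact hp0 (by exact_mod_cast h)
    have h6 := congrArg (padicValRat l) hy
    rw [padicValRat.mul (by positivity) (by exact_mod_cast hp0), padicValRat.of_nat,
      padicValRat.of_nat, padicValRat.pow, padicValNat.eq_zero_of_not_dvd hprod,
      ← Nat.factorization_def _ hl] at h6
    obtain ⟨s, hs⟩ := hl0
    rw [hs] at h6
    push_cast at h6
    omega
  have h6 : ∏ i : Fin k, eps (b i.succ) ^ (c i.succ) = 1 := by
    rw [hc0, zpow_zero, one_mul] at hc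
    exact hc
  have h7 := hb (fun i => c i.succ) h6
  intro i
  refine Fin.cases ?_ (fun j => ?_) i
  · exact hc0
  · exact h7 j

end Pool.Agent.H482.QO
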