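import Mathlib
import Pool.Agent.H482.QO.Q1
import Pool.Agent.H482.QO.Q4

/-!
A bounded number of independent obstructed conditions; the finite exceptional set.
-/

set_option autoImplicit false

open Finset Filter

namespace Pool.Agent.H482.QO

open Pool.Agent.Y855 (OP mem_OP)
open Pool.Agent.H482.MR (zz zz_spec)
open Pool.Agent.H482.RG (ev_saving pigeon)

/-- a finite set of traces and a set of primes -/
structure Obj where
  /-- the traces -/
  N : Finset ℕ
  /-- the condition -/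
  C : Set ℕ

open Classical in
/-- the good primes `p ≤ x` -/
noncomputable def Gd (O : Obj) (x : ℕ) : Finset ℕ :=
  (Icc 1 x).filter (fun p => p.Prime ∧ p ∈ O.C ∧ ∀ t ∈ O.N, Good t p)

open Classical in
theorem mem_Gd {O : Obj} {x p : ℕ} :
    p ∈ Gd O x ↔ p ∈ Icc 1 x ∧ p.Prime ∧ p ∈ O.C ∧ ∀ t ∈ O.N, Good t p := by
  unfold Gd
  exact mem_filter

/-- few good primes -/
def Obj.Stuck (O : Obj) : Prop :=
  ∀ δ : ℝ, 0 < δ → ∀ᶠ x : ℕ in atTop, ((Gd O x).card : ℝ) ≤ δ * (x / (Real.log x) ^ 2)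

/-- a compatible and independent family of `k` obstructed conditions -/
def Fam (c k : ℕ) (O : Fin k → Obj) (A m : ℕ) : Prop :=
  (∀ i, (O i).Stuck) ∧ (∀ i, ∀ t ∈ (O i).N, 1 ≤ t) ∧
  (∀ b : Fin k → ℕ, (∀ i, b i ∈ (O i).N) → IndU b) ∧
  Allowed A m ∧ 24 ∣ m ∧ A % 8 = c ∧ ∀ p : ℕ, p.Prime → p ≡ A [MOD m] → ∀ i, p ∈ (O i).C

/-- the large prime factors of `p + 1` -/
def LFp (z p : ℕ) : Finset ℕ := (p + 1).primeFactors.filter (fun l => z < l)

theorem LFp_card (x z p : ℕ) (hz : 2 ≤ z) (hx : 2 ≤ x) (hp : p ≤ x) :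
    ((LFp z p).card : ℝ) ≤ 2 * (Real.log x / Real.log z) := by
  have hz2 : (2 : ℝ) ≤ z := by exact_mod_cast hz
  have hlz : 0 < Real.log z := Real.log_pos (by linarith)
  have h1 : ∀ l ∈ LFp z p, l.Prime ∧ l ∣ p + 1 ∧ z < l := by
    intro l hl
    unfold LFp at hl
    rw [mem_filter] at hl
    exact ⟨Nat.prime_of_mem_primeFactors hl.1, Nat.dvd_of_mem_primeFactors hl.1, hl.2⟩
  have h2 : ∏ l ∈ LFp z p, l ∣ p + 1 := Finset.prod_primes_dvd _
    (fun l hl => (h1 l hl).1.prime) fun l hl => (h1 l hl).2.1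
  have h3 := Nat.le_of_dvd (by omega) h2
  have h4 : z ^ (LFp z p).card ≤ ∏ l ∈ LFp z p, l := by
    rw [← prod_const]
    exact prod_le_prod' fun l hl => (h1 l hl).2.2.le
  have h5 : z ^ (LFp z p).card ≤ x ^ 2 := by
    have : p + 1 ≤ x ^ 2 := by nlinarith
    omega
  have h6 : ((z : ℝ)) ^ (LFp z p).card ≤ (x : ℝ) ^ 2 := by exact_mod_cast h5
  rw [← mul_div_assoc, le_div_iff₀ hlz, ← Real.log_pow]
  have h7 := Real.log_le_log (by positivity) h6
  rw [Real.log_pow (n := 2)] at h7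
  push_cast at h7
  exact h7

/-- a prime which is not good has a bad trace and a large prime -/
theorem not_good (x z : ℕ) (O : Obj) (p : ℕ) (hpx : p ≤ x) (hp : p.Prime)
    (hpz : ∀ q ∈ OP z, ¬ q ∣ p + 1) (hpC : p ∈ O.C) (hG : p ∉ Gd O x) :
    ∃ t ∈ O.N, ∃ l ∈ LFp z p, 3 ≤ l ∧ p ∣ lu t ((p + 1) / l) := by
  classical
  have h1 : ¬ ∀ t ∈ O.N, Good t p := by
    intro h
    apply hG
    rw [mem_Gd, mem_Icc]
    exact ⟨⟨hp.one_le, hpx⟩, hp, hpC, h⟩
  push Not at h1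
  obtain ⟨t, ht, h2⟩ := h1
  unfold Good at h2
  push Not at h2
  obtain ⟨l, hl, hl3, hlp, hln⟩ := h2
  refine ⟨t, ht, l, ?_, hl3, hln⟩
  unfold LFp
  rw [mem_filter, Nat.mem_primeFactors]
  refine ⟨⟨hl, hlp, by omega⟩, ?_⟩
  by_contra hcon
  exact hpz l (mem_OP.2 ⟨hl, hl3, by omega⟩) hlp

theorem few_stuck : ∃ R : ℕ, ∀ c, (c = 3 ∨ c = 7) → ∀ (O : Fin R → Obj) (A m : ℕ),
    ¬ Fam c R O A m := by
  classical
  obtain ⟨K, hK, hlow⟩ := NSp_lower
  have hK0 : 0 < K := by linarith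
  obtain ⟨r, hr⟩ : ∃ r : ℕ, r = ⌈4 * K⌉₊ := ⟨_, rfl⟩
  have hrK : 4 * K ≤ r := by rw [hr]; exact Nat.le_ceil _
  have hr2 : 2 ≤ r := by
    have : (2 : ℝ) ≤ r := by linarith
    exact_mod_cast this
  obtain ⟨R, hR⟩ : ∃ R : ℕ, R = r * ⌈4 * K⌉₊ + 1 := ⟨_, rfl⟩
  refine ⟨R, fun c hc O A m hFam => ?_⟩
  obtain ⟨hS, h0, hInd, hAll, h24, hA8, hcl⟩ := hFam
  have hR0 : (0 : ℝ) < R := by rw [hR]; positivity
  obtain ⟨c₀, hc₀, hlow⟩ := hlow A m hAll
  -- the transversals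
  obtain ⟨Tr, hTr⟩ : ∃ Tr : Finset (Fin R → ℕ), Tr = Fintype.piFinset (fun i => (O i).N) := ⟨_, rfl⟩
  have hTrmem : ∀ b ∈ Tr, ∀ i, b i ∈ (O i).N := by
    intro b hb i
    rw [hTr, Fintype.mem_piFinset] at hb
    exact hb i
  have hexC : ∀ b : Fin R → ℕ, ∃ C : ℝ, 0 ≤ C ∧ (b ∈ Tr → ∀ x : ℕ, 1 ≤ x →
      ((Exq x r b).card : ℝ) ≤ C * (x : ℝ) ^ (1 - 1 / (r : ℝ))) := by
    intro b
    by_cases hb : b ∈ Tr
    · obtain ⟨C, hC, h⟩ := exq_bound b (hInd b (hTrmem b hb)) r hr2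
      exact ⟨C, hC, fun _ => h⟩
    · exact ⟨0, le_rfl, fun h => absurd h hb⟩
  choose C hC0 hC using hexC
  -- the constants
  obtain ⟨δ, hδ⟩ : ∃ δ : ℝ, δ = c₀ / 4 := ⟨_, rfl⟩
  have hδ0 : 0 < δ := by rw [hδ]; positivity
  have hev1 := ev_saving 0 (∑ b ∈ Tr, C b) δ le_rfl (sum_nonneg fun b _ => hC0 b) hδ0 r (by omega)
  have hev2 : ∀ᶠ x : ℕ in atTop, ∀ i, ((Gd (O i) x).card : ℝ) ≤
      (δ / R) * (x / (Real.log x) ^ 2) := by
    rw [eventually_all]
    intro i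
    exact hS i (δ / R) (by positivity)
  obtain ⟨X₁, -, hX₁⟩ := zz_spec K (by linarith) 2 1
  obtain ⟨x, ⟨⟨h1, h2⟩, h3⟩, hx⟩ := (((hev1.and hev2).and hlow).and
    (eventually_ge_atTop (X₁ + 3))).exists
  have hxn : 3 ≤ x := by omega
  have hxr : (3 : ℝ) ≤ x := by exact_mod_cast hxn
  have hx0 : (0 : ℝ) < x := by linarith
  have hL0 : 0 < Real.log x := Real.log_pos (by linarith)
  obtain ⟨hz1, hz2, hz3, hz4, hz5⟩ := hX₁ x (by omega)
  set z := zz K x with hz
  have hzr : (2 : ℝ) ≤ z := hz4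
  have hzn : 2 ≤ z := by exact_mod_cast hzr
  have hlz : 0 < Real.log z := Real.log_pos (by linarith)
  -- the covering
  have hsub : NSp x m A (OP z) ⊆ univ.biUnion (fun i => Gd (O i) x) ∪
      Tr.biUnion (fun b => Exq x r b) := by
    intro p hp
    unfold NSp at hp
    rw [mem_filter, mem_Icc] at hp
    obtain ⟨⟨hp1, hpx⟩, hpp, hpA, hpq⟩ := hp
    have hpi := hcl p hpp hpA
    rw [mem_union]
    by_cases hpG : ∃ i, p ∈ Gd (O i) x
    · left
      rw [mem_biUnion]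
      obtain ⟨i, hi⟩ := hpG
      exact ⟨i, mem_univ i, hi⟩
    right
    push Not at hpG
    have hch : ∀ i, ∃ t ∈ (O i).N, ∃ l ∈ LFp z p, 3 ≤ l ∧ p ∣ lu t ((p + 1) / l) :=
      fun i => not_good x z (O i) p hpx hpp hpq (hpi i) (hpG i)
    choose b hb l hl hl3 hbl using hch
    have hbT : b ∈ Tr := by
      rw [hTr, Fintype.mem_piFinset]
      exact hb
    rw [mem_biUnion]
    refine ⟨b, hbT, ?_⟩
    have hLFc : ((LFp z p).card : ℝ) ≤ 4 * K :=
      (LFp_card x z p hzn (by omega) hpx).trans (by linarith)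
    have hLFn : (LFp z p).card ≤ ⌈4 * K⌉₊ := by
      have : ((LFp z p).card : ℝ) ≤ ((⌈4 * K⌉₊ : ℕ) : ℝ) := hLFc.trans (Nat.le_ceil _)
      exact_mod_cast this
    obtain ⟨l₀, hl₀, hcard⟩ := pigeon (LFp z p) l hl r (by
      rw [Fintype.card_fin, hR]
      have := Nat.mul_le_mul_left r hLFn
      omega)
    have hl₀' := hl₀
    unfold LFp at hl₀
    rw [mem_filter, Nat.mem_primeFactors] at hl₀
    obtain ⟨⟨hl0p, hl0d, -⟩, hl0z⟩ := hl₀
    have hl03 : 3 ≤ l₀ := by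
      obtain ⟨i, hi⟩ : (univ.filter (fun i => l i = l₀)).Nonempty := by
        rw [← card_pos]
        omega
      rw [mem_filter] at hi
      rw [← hi.2]
      exact hl3 i
    have hp4 : p % 4 = 3 := by
      have h8 : 8 ∣ m := (by norm_num : 8 ∣ 24).trans h24
      have h9 : p % 8 = A % 8 := hpA.of_dvd h8
      omega
    unfold Exq
    rw [mem_filter, mem_Icc]
    refine ⟨⟨hp1, hpx⟩, hpp, hp4, l₀, hl0p, hl03, hl0d, ?_, univ.filter (fun i => l i = l₀), hcard.le,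
      fun i hi => ?_⟩
    · have h3 : Real.log x * 2 ≤ Real.log l₀ * r := by
        rw [div_le_iff₀ hlz] at hz3
        have h4 : Real.log z ≤ Real.log l₀ := by
          apply Real.log_le_log (by linarith)
          exact_mod_cast hl0z.le
        calc Real.log x * 2 ≤ 2 * K * Real.log z * 2 := by linarith
          _ = (4 * K) * Real.log z := by ring
          _ ≤ r * Real.log l₀ := by
              apply mul_le_mul hrK h4 hlz.le (by positivity)
          _ = Real.log l₀ * r := by ring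
      have h5 : Real.log ((x : ℝ) ^ 2) ≤ Real.log ((l₀ : ℝ) ^ r) := by
        rw [Real.log_pow, Real.log_pow]
        push_cast
        linarith
      have hl00 : (0 : ℝ) < l₀ := by exact_mod_cast hl0p.pos
      have h6 := (Real.log_le_log_iff (by positivity) (by positivity)).1 h5
      exact_mod_cast h6
    · rw [mem_filter] at hi
      rw [← hi.2]
      exact hbl i
  have hcard := (card_le_card hsub).trans ((card_union_le _ _).trans
    (Nat.add_le_add card_biUnion_le card_biUnion_le))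
  have hcard' : ((NSp x m A (OP z)).card : ℝ) ≤
      ∑ i, ((Gd (O i) x).card : ℝ) + ∑ b ∈ Tr, ((Exq x r b).card : ℝ) := by
    exact_mod_cast hcard
  have hsum1 : ∑ i, ((Gd (O i) x).card : ℝ) ≤ δ * (x / (Real.log x) ^ 2) := by
    calc ∑ i, ((Gd (O i) x).card : ℝ)
        ≤ ∑ _i : Fin R, (δ / R) * (x / (Real.log x) ^ 2) := sum_le_sum fun i _ => h2 i
      _ = δ * (x / (Real.log x) ^ 2) := by
          rw [sum_const, card_univ, Fintype.card_fin, nsmul_eq_mul]
          field_simp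
  have hsum2 : ∑ b ∈ Tr, ((Exq x r b).card : ℝ) ≤
      (∑ b ∈ Tr, C b) * (x : ℝ) ^ (1 - 1 / (r : ℝ)) := by
    rw [sum_mul]
    exact sum_le_sum fun b hb => hC b hb x (by omega)
  have h4 : 0 < (x : ℝ) / (Real.log x) ^ 2 := by positivity
  rw [hδ] at hsum1 h1
  nlinarith

/-- a base for the class `c` modulo `8` -/
def Base (c : ℕ) (U : Finset ℕ) (A m : ℕ) : Prop :=
  (∀ u ∈ U, u.Prime) ∧ m.primeFactors ⊆ U ∧ Allowed A m ∧ 24 ∣ m ∧ A % 8 = c ∧
  ∀ O : Obj, (∀ t ∈ O.N, 1 ≤ t ∧ ∃ l : ℕ, l.Prime ∧ l ∉ U ∧ Odd ((t ^ 2 + 4).factorization l)) →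
    (∃ A' m', Allowed A' m' ∧ m ∣ m' ∧ A' ≡ A [MOD m] ∧
      ∀ p : ℕ, p.Prime → p ≡ A' [MOD m'] → p ∈ O.C) → ¬ O.Stuck

theorem allowed_24 (A : ℕ) (h : A = 19 ∨ A = 7) : Allowed A 24 := by
  refine ⟨by norm_num, ?_, ?_⟩
  · rcases h with rfl | rfl <;> decide
  · intro q hq hq3
    have hqp := Nat.prime_of_mem_primeFactors hq
    have hqd := Nat.dvd_of_mem_primeFactors hq
    have h1 : q ∣ 2 ^ 3 * 3 := by simpa using hqd
    rcases hqp.dvd_mul.1 h1 with h2 | h2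
    · have h3 := Nat.le_of_dvd (by norm_num) (hqp.dvd_of_dvd_pow h2)
      omega
    · have h3 := Nat.le_of_dvd (by norm_num) h2
      have h4 : q = 3 := by omega
      subst h4
      rcases h with rfl | rfl <;> norm_num

theorem exists_base (c : ℕ) (hc : c = 3 ∨ c = 7) : ∃ U A m, Base c U A m := by
  classical
  obtain ⟨R, hR⟩ := few_stuck
  have h0 : ∃ (O : Fin 0 → Obj) (A m : ℕ), Fam c 0 O A m := by
    obtain ⟨A, hA, hA8⟩ : ∃ A, (A = 19 ∨ A = 7) ∧ A % 8 = c := by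
      rcases hc with rfl | rfl
      · exact ⟨19, by norm_num, by norm_num⟩
      · exact ⟨7, by norm_num, by norm_num⟩
    exact ⟨fun i => i.elim0, A, 24, fun i => i.elim0, fun i => i.elim0,
      fun b _ e _ i => i.elim0, allowed_24 A hA, dvd_refl _, hA8, fun _ _ _ i => i.elim0⟩
  obtain ⟨k, ⟨O, A, m, hF⟩, hk1⟩ : ∃ k, (∃ (O : Fin k → Obj) (A m : ℕ), Fam c k O A m) ∧
      ¬ ∃ (O : Fin (k + 1) → Obj) (A m : ℕ), Fam c (k + 1) O A m := by
    by_contra hcon
    push Not at hcon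
    have hall : ∀ k, ∃ (O : Fin k → Obj) (A m : ℕ), Fam c k O A m := by
      intro k
      induction k with
      | zero => exact h0
      | succ k ih => exact hcon k ih
    obtain ⟨O, A, m, h⟩ := hall R
    exact hR c hc O A m h
  obtain ⟨h1, h2, h3, h4, h5, h6, h7⟩ := hF
  refine ⟨m.primeFactors ∪ univ.biUnion (fun i => (O i).N.biUnion (fun t => (t ^ 2 + 4).primeFactors)),
    A, m, ?_, subset_union_left, h4, h5, h6, ?_⟩
  · intro u hu
    rw [mem_union, mem_biUnion] at hu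
    rcases hu with hu | ⟨i, -, hu⟩
    · exact Nat.prime_of_mem_primeFactors hu
    · rw [mem_biUnion] at hu
      obtain ⟨n, -, hu⟩ := hu
      exact Nat.prime_of_mem_primeFactors hu
  · rintro P hP ⟨A', m', hA', hmm, hAA, hPC⟩ hS
    apply hk1
    refine ⟨Fin.cons P O, A', m', ?_, ?_, ?_, hA', h5.trans hmm, ?_, ?_⟩
    · intro i
      refine Fin.cases ?_ (fun j => ?_) i
      · exact hS
      · exact h1 j
    · intro i
      refine Fin.cases ?_ (fun j => ?_) i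
      · exact fun n hn => (hP n hn).1
      · exact h2 j
    · intro b hb
      have hb0 : b 0 ∈ P.N := by
        have := hb 0
        rwa [Fin.cons_zero] at this
      have hbi : ∀ i : Fin k, b i.succ ∈ (O i).N := by
        intro i
        have := hb i.succ
        rwa [Fin.cons_succ] at this
      obtain ⟨hne, l, hl, hlU, hln⟩ := hP _ hb0
      apply IndU_cons b _ (h3 _ hbi) l hl hln
      · intro i hli
        apply hlU
        rw [mem_union, mem_biUnion]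
        right
        refine ⟨i, mem_univ i, ?_⟩
        rw [mem_biUnion]
        refine ⟨_, hbi i, ?_⟩
        rw [Nat.mem_primeFactors]
        exact ⟨hl, hli, by omega⟩
      · intro i
        refine Fin.cases ?_ (fun j => ?_) i
        · exact hne
        · exact h2 j _ (hbi j)
    · have h8 : 8 ∣ m := (by norm_num : 8 ∣ 24).trans h5
      have h9 : A' % 8 = A % 8 := hAA.of_dvd h8
      rw [h9, h6]
    · intro p hp hpA i
      refine Fin.cases ?_ (fun j => ?_) i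
      · exact hPC p hp hpA
      · exact h7 p hp ((hpA.of_dvd hmm).trans hAA) j

end Pool.Agent.H482.QO
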