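import Mathlib
import Pool.Agent.H482.QO.Q5
import Pool.Agent.H482.RG.R7

/-!
Prescribed quadratic symbols for an independent set of integers.
-/

set_option autoImplicit false

open Finset Filter

namespace Pool.Agent.H482.QO

open Pool.Agent.H482.RG (jac_same recip_same odd_of_mod8 jac_of_modEq exists_sign
  exists_prime_classes)

theorem z01 : ∀ a : ZMod 2, a = 0 ∨ a = 1 := by decide

theorem z10 : ¬ (0 : ZMod 2) = 1 := by decide

theorem exists_flip (P N : Finset ℕ) (v : ℕ → ℕ → ℕ)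
    (h : ∀ S ⊆ N, S.Nonempty → ∃ l ∈ P, Odd (∑ d ∈ S, v d l)) (g : ℕ → Prop) :
    ∃ F ⊆ P, ∀ d ∈ N, (Odd (∑ l ∈ F, v d l) ↔ g d) := by
  classical
  have : Fact (Nat.Prime 2) := ⟨Nat.prime_two⟩
  set T : (P → ZMod 2) →ₗ[ZMod 2] (N → ZMod 2) :=
    { toFun := fun x d => ∑ l : P, x l * (v d l : ZMod 2)
      map_add' := by
        intro x y
        funext d
        simp only [Pi.add_apply, add_mul, sum_add_distrib]
      map_smul' := by
        intro a x
        funext d
        simp only [Pi.smul_apply, smul_eq_mul, RingHom.id_apply, mul_sum, mul_assoc] } with hT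
  have hTa : ∀ x d, T x d = ∑ l : P, x l * (v d l : ZMod 2) := fun x d => rfl
  have htop : LinearMap.range T = ⊤ := by
    by_contra hne
    obtain ⟨f, hf0, hf⟩ := Submodule.exists_le_ker_of_lt_top _ (lt_top_iff_ne_top.2 hne)
    set e : N → ZMod 2 := fun d => f (fun j => if d = j then 1 else 0) with he
    have hfx : ∀ x, f x = ∑ d, x d * e d := by
      intro x
      rw [LinearMap.pi_apply_eq_sum_univ f x]
      simp only [smul_eq_mul, he]
    set S : Finset ℕ := (univ.filter (fun d : N => e d = 1)).image (fun d : N => (d : ℕ)) with hS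
    have h01 := z01
    have hSN : S ⊆ N := by
      intro d hd
      rw [hS, mem_image] at hd
      obtain ⟨d', -, rfl⟩ := hd
      exact d'.2
    have hSne : S.Nonempty := by
      by_contra hcon
      rw [not_nonempty_iff_eq_empty] at hcon
      apply hf0
      ext x
      rw [LinearMap.comp_apply, hfx, LinearMap.zero_comp, LinearMap.zero_apply]
      apply sum_eq_zero
      intro d _
      rcases h01 (e d) with h1 | h1
      · rw [h1, mul_zero]
      · exfalso
        have : (d : ℕ) ∈ S := by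
          rw [hS, mem_image]
          exact ⟨d, mem_filter.2 ⟨mem_univ _, h1⟩, rfl⟩
        rw [hcon] at this
        exact notMem_empty _ this
    obtain ⟨l, hl, hodd⟩ := h S hSN hSne
    have h1 : f (T (Pi.single (⟨l, hl⟩ : P) 1)) = 0 := hf ⟨_, rfl⟩
    rw [hfx] at h1
    have h2 : ∀ d : N, T (Pi.single (⟨l, hl⟩ : P) 1) d = (v d l : ZMod 2) := by
      intro d
      rw [hTa, Finset.sum_eq_single (⟨l, hl⟩ : P)]
      · rw [Pi.single_eq_same, one_mul]
      · intro b _ hb
        rw [Pi.single_eq_of_ne hb, zero_mul]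
      · intro hb
        exact absurd (mem_univ _) hb
    simp only [h2] at h1
    have h3 : ∑ d : N, (v d l : ZMod 2) * e d = ((∑ d ∈ S, v d l : ℕ) : ZMod 2) := by
      rw [hS, sum_image (fun a _ b _ hab => Subtype.ext hab)]
      push_cast
      rw [sum_filter]
      apply sum_congr rfl
      intro d _
      rcases h01 (e d) with h4 | h4
      · rw [h4, mul_zero, if_neg z10]
      · rw [h4, mul_one, if_pos rfl]
    rw [h3, ZMod.natCast_eq_zero_iff_even] at h1
    exact (Nat.not_even_iff_odd.2 hodd) h1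
  obtain ⟨x, hx⟩ : (fun d : N => if g d then (1 : ZMod 2) else 0) ∈ LinearMap.range T := by
    rw [htop]
    exact Submodule.mem_top
  refine ⟨(univ.filter (fun l : P => x l = 1)).image (fun l : P => (l : ℕ)), ?_, ?_⟩
  · intro l hl
    rw [mem_image] at hl
    obtain ⟨l', -, rfl⟩ := hl
    exact l'.2
  · intro d hd
    have h01 := z01
    have h1 := congrFun hx ⟨d, hd⟩
    rw [hTa] at h1
    have h3 : ∑ l : P, x l * (v d l : ZMod 2) = ((∑ l ∈ (univ.filter (fun l : P => x l = 1)).image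
        (fun l : P => (l : ℕ)), v d l : ℕ) : ZMod 2) := by
      rw [sum_image (fun a _ b _ hab => Subtype.ext hab)]
      push_cast
      rw [sum_filter]
      apply sum_congr rfl
      intro l _
      rcases h01 (x l) with h4 | h4
      · rw [h4, zero_mul, if_neg z10]
      · rw [h4, one_mul, if_pos rfl]
    rw [h3] at h1
    rw [← ZMod.natCast_eq_one_iff_odd, h1]
    by_cases hg : g d
    · simp [hg]
    · simp [hg]

/-- independence over `U` -/
def Indep (U N : Finset ℕ) : Prop :=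
  (∀ d ∈ N, d ≠ 0) ∧ ∀ S ⊆ N, S.Nonempty → ∃ l : ℕ, l.Prime ∧ l ∉ U ∧ Odd ((∏ d ∈ S, d).factorization l)

theorem exists_symbols (U : Finset ℕ) (hU2 : 2 ∈ U) (hUp : ∀ u ∈ U, u.Prime) (c : ℕ)
    (hc : c = 1 ∨ c = 3 ∨ c = 5 ∨ c = 7) (N : Finset ℕ) (hN : Indep U N) (ε : ℕ → ℤ)
    (hε : ∀ u, ε u = 1 ∨ ε u = -1) : ∃ p₀ : ℕ, p₀.Prime ∧ p₀ % 8 = c ∧
    (∀ u ∈ U, u ≠ 2 → jacobiSym u p₀ = ε u) ∧ ∀ n ∈ N, jacobiSym n p₀ = -1 := by
  classical
  obtain ⟨hN0, hNi⟩ := hN
  have hco : Odd c := by rw [Nat.odd_iff]; omega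
  obtain ⟨S, hS⟩ : ∃ S : Finset ℕ,
      S = (U ∪ N.biUnion (fun n => n.primeFactors)).filter (fun q => q ≠ 2) := ⟨_, rfl⟩
  have hSp : ∀ q ∈ S, q.Prime ∧ q ≠ 2 := by
    intro q hq
    rw [hS, mem_filter, mem_union] at hq
    refine ⟨?_, hq.2⟩
    rcases hq.1 with h | h
    · exact hUp q h
    · rw [mem_biUnion] at h
      obtain ⟨n, -, h⟩ := h
      exact Nat.prime_of_mem_primeFactors h
  have hNS : ∀ n ∈ N, ∀ q : ℕ, q.Prime → q ≠ 2 → q ∣ n → q ∈ S := by
    intro n hn q hq hq2 hqn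
    rw [hS, mem_filter, mem_union, mem_biUnion]
    exact ⟨Or.inr ⟨n, hn, Nat.mem_primeFactors.2 ⟨hq, hqn, hN0 n hn⟩⟩, hq2⟩
  have hsg : ∀ u, ∃ v : ℕ, (u ∈ U ∧ u ≠ 2) → v.Coprime u ∧ jacobiSym v u = qrSign c u * ε u := by
    intro u
    by_cases hu : u ∈ U ∧ u ≠ 2
    · have huo : Odd u := (hUp u hu.1).odd_of_ne_two hu.2
      have h1 : qrSign c u = 1 ∨ qrSign c u = -1 := by
        have h2 := qrSign.sq_eq_one hco huo
        have h3 : (qrSign c u - 1) * (qrSign c u + 1) = 0 := by linarith [h2, sq (qrSign c u)]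
        rcases mul_eq_zero.1 h3 with h | h
        · left; omega
        · right; omega
      obtain ⟨v, hv1, hv2⟩ := exists_sign u (hUp u hu.1) hu.2 (qrSign c u * ε u) (by
        rcases h1 with h | h <;> rcases hε u with h' | h' <;> rw [h, h'] <;> norm_num)
      exact ⟨v, fun _ => ⟨hv1, hv2⟩⟩
    · exact ⟨0, fun h => absurd h hu⟩
  choose g hg using hsg
  have hws : ∀ l, ∃ w : ℕ, (l.Prime ∧ l ≠ 2) → w.Coprime l ∧ jacobiSym w l = -1 := by
    intro l
    by_cases hl : l.Prime ∧ l ≠ 2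
    · obtain ⟨w, hw⟩ := exists_sign l hl.1 hl.2 (-1) (Or.inr rfl)
      exact ⟨w, fun _ => hw⟩
    · exact ⟨0, fun h => absurd h hl⟩
  choose w hw using hws
  -- the primes
  have hpr : ∀ F : Finset ℕ, ∃ p : ℕ, p.Prime ∧ p % 8 = c ∧
      ∀ q ∈ S, p ≡ (if q ∈ U then g q else if q ∈ F then w q else 1) [MOD q] := by
    intro F
    apply exists_prime_classes c hc S hSp
    intro q hq
    split_ifs with h1 h2
    · exact (hg q ⟨h1, (hSp q hq).2⟩).1
    · exact (hw q (hSp q hq)).1
    · exact Nat.coprime_one_left _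
  choose pr hpr hpr8 hprS using hpr
  have hpro : ∀ F, Odd (pr F) := fun F => odd_of_mod8 hc (hpr8 F)
  have hχ : ∀ F, ZMod.χ₄ (pr F) = ZMod.χ₄ c := by
    intro F
    rw [ZMod.χ₄_nat_mod_four (pr F), ZMod.χ₄_nat_mod_four c, show pr F % 4 = c % 4 by
      have := hpr8 F; omega]
  have hUs : ∀ F, ∀ u ∈ U, u ≠ 2 → jacobiSym u (pr F) = ε u := by
    intro F u hu hu2
    have huo : Odd u := (hUp u hu).odd_of_ne_two hu2
    have huS : u ∈ S := by
      rw [hS, mem_filter, mem_union]
      exact ⟨Or.inl hu, hu2⟩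
    have h1 := hprS F u huS
    rw [if_pos hu] at h1
    rw [jacobiSym.quadratic_reciprocity' huo (hpro F), jac_of_modEq h1, (hg u ⟨hu, hu2⟩).2]
    have e : qrSign (pr F) u = qrSign c u := by
      unfold qrSign
      rw [hχ F]
    have := qrSign.sq_eq_one hco huo
    rw [e, ← mul_assoc, ← sq, this, one_mul]
  -- the change of the symbols
  have hch : ∀ F : Finset ℕ, (∀ l ∈ F, l ∉ U) → ∀ n ∈ N, ∀ l ∈ n.primeFactors,
      jacobiSym (l : ℤ) (pr F) = (if l ∈ F then -1 else 1) * jacobiSym (l : ℤ) (pr ∅) := by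
    intro F hF n hn l hl
    have hlp := Nat.prime_of_mem_primeFactors hl
    by_cases hl2 : l = 2
    · subst hl2
      rw [if_neg (fun h => hF 2 h hU2), one_mul]
      have h1 := jacobiSym.at_two (hpro F)
      have h2 := jacobiSym.at_two (hpro ∅)
      have hχ8 : ZMod.χ₈ (pr F) = ZMod.χ₈ (pr ∅) := by
        rw [ZMod.χ₈_nat_mod_eight (pr F), ZMod.χ₈_nat_mod_eight (pr ∅), hpr8, hpr8]
      push_cast
      rw [h1, h2, hχ8]
    · have hlo := hlp.odd_of_ne_two hl2
      have hlS := hNS n hn l hlp hl2 (Nat.dvd_of_mem_primeFactors hl)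
      have h1 := hprS F l hlS
      have h2 := hprS ∅ l hlS
      rw [jacobiSym.quadratic_reciprocity' hlo (hpro F), jacobiSym.quadratic_reciprocity' hlo (hpro ∅),
        jac_of_modEq h1, jac_of_modEq h2]
      unfold qrSign
      rw [hχ F, hχ ∅]
      by_cases hlU : l ∈ U
      · rw [if_pos hlU, if_pos hlU, if_neg (fun h => hF l h hlU), one_mul]
      · rw [if_neg hlU, if_neg hlU, if_neg (notMem_empty l), Nat.cast_one, jacobiSym.one_left]
        by_cases hlF : l ∈ F
        · rw [if_pos hlF, if_pos hlF, (hw l ⟨hlp, hl2⟩).2]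
          ring
        · rw [if_neg hlF, if_neg hlF, Nat.cast_one, jacobiSym.one_left]
          ring
  have hexp : ∀ n ∈ N, ∀ F, jacobiSym (n : ℤ) (pr F) =
      ∏ l ∈ n.primeFactors, jacobiSym (l : ℤ) (pr F) ^ n.factorization l := by
    intro n hn F
    have h1 : n = ∏ l ∈ n.primeFactors, l ^ n.factorization l :=
      (Nat.prod_factorization_pow_eq_self (hN0 n hn)).symm
    have key : ∀ G : Finset ℕ, jacobiSym ((∏ l ∈ G, l ^ n.factorization l : ℕ) : ℤ) (pr F) =
        ∏ l ∈ G, jacobiSym (l : ℤ) (pr F) ^ n.factorization l := by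
      intro G
      induction G using Finset.induction_on with
      | empty => simp [jacobiSym.one_left]
      | insert a G ha ih =>
        rw [prod_insert ha, prod_insert ha, Nat.cast_mul, jacobiSym.mul_left, ih, Nat.cast_pow,
          jacobiSym.pow_left]
    conv_lhs => rw [h1]
    exact key _
  have hflip : ∀ F : Finset ℕ, (∀ l ∈ F, l ∉ U) → ∀ n ∈ N, jacobiSym (n : ℤ) (pr F) =
      (-1) ^ (∑ l ∈ F, n.factorization l) * jacobiSym (n : ℤ) (pr ∅) := by
    intro F hF n hn
    rw [hexp n hn F, hexp n hn ∅, prod_congr rfl (fun l hl => by rw [hch F hF n hn l hl, mul_pow]),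
      prod_mul_distrib]
    congr 1
    have h1 : ∀ l ∈ n.primeFactors, (if l ∈ F then (-1 : ℤ) else 1) ^ n.factorization l =
        (-1) ^ (if l ∈ F then n.factorization l else 0) := by
      intro l _
      split_ifs
      · rfl
      · rw [one_pow, pow_zero]
    rw [prod_congr rfl h1, prod_pow_eq_pow_sum]
    congr 1
    rw [← sum_filter, filter_mem_eq_inter]
    apply sum_subset inter_subset_right
    intro l hl hl'
    rw [mem_inter, not_and] at hl'
    have h2 : l ∉ n.primeFactors := fun h => hl' h hl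
    rw [← Nat.support_factorization] at h2
    exact Finsupp.notMem_support_iff.1 h2
  have hnz : ∀ n ∈ N, jacobiSym (n : ℤ) (pr ∅) ≠ 0 := by
    intro n hn
    rw [Ne, jacobiSym.eq_zero_iff]
    rintro ⟨-, h⟩
    apply h
    rw [Int.gcd_natCast_natCast]
    change Nat.Coprime n (pr ∅)
    rw [Nat.coprime_comm, Nat.Prime.coprime_iff_not_dvd (hpr ∅)]
    intro hd
    have hp'2 : pr ∅ ≠ 2 := by
      intro h2
      have := hpro ∅
      rw [h2] at this
      exact absurd this (by decide)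
    have hpS' := hNS n hn (pr ∅) (hpr ∅) hp'2 hd
    have h1 := hprS ∅ (pr ∅) hpS'
    have h2 : (if pr ∅ ∈ U then g (pr ∅) else if pr ∅ ∈ (∅ : Finset ℕ) then w (pr ∅) else 1).Coprime
        (pr ∅) := by
      split_ifs with h3 h4
      · exact (hg _ ⟨h3, hp'2⟩).1
      · exact absurd h4 (notMem_empty _)
      · exact Nat.coprime_one_left _
    rw [Nat.Coprime, ← h1.gcd_eq, Nat.gcd_self] at h2
    exact (hpr ∅).one_lt.ne' h2
  obtain ⟨F, hF, hFn⟩ := exists_flip (S \ U) N (fun n l => n.factorization l) (by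
    intro S' hS' hne
    obtain ⟨l, hl, hlU, hodd⟩ := hNi S' hS' hne
    have h1 : (∏ d ∈ S', d).factorization l = ∑ d ∈ S', d.factorization l := by
      rw [Nat.factorization_prod (fun d hd => hN0 d (hS' hd)), Finsupp.finsetSum_apply]
    rw [h1] at hodd
    refine ⟨l, ?_, hodd⟩
    rw [Finset.mem_sdiff]
    refine ⟨?_, hlU⟩
    obtain ⟨d, hd, hdl⟩ : ∃ d ∈ S', d.factorization l ≠ 0 := by
      by_contra hcon
      push Not at hcon
      rw [sum_eq_zero hcon] at hodd
      exact absurd hodd (by decide)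
    apply hNS d (hS' hd) l hl
    · rintro rfl
      exact hlU hU2
    · by_contra h
      exact hdl (Nat.factorization_eq_zero_of_not_dvd h))
    (fun n => jacobiSym (n : ℤ) (pr ∅) = 1)
  have hFU : ∀ l ∈ F, l ∉ U := fun l hl => (Finset.mem_sdiff.1 (hF hl)).2
  refine ⟨pr F, hpr F, hpr8 F, hUs F, fun n hn => ?_⟩
  rw [hflip F hFU n hn]
  rcases jacobiSym.trichotomy (n : ℤ) (pr ∅) with h | h | h
  · exact absurd h (hnz n hn)
  · rw [h, ((hFn n hn).2 h).neg_one_pow]
    norm_num
  · have h1 : ¬ Odd (∑ l ∈ F, n.factorization l) := by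
      rw [hFn n hn, h]
      norm_num
    rw [h, (Nat.not_odd_iff_even.1 h1).neg_one_pow]
    norm_num

/-- a class with a given symbol, different from `-1` -/
theorem exists_class (l : ℕ) (hl : l.Prime) (hl5 : 5 ≤ l) (p₀ : ℕ) (hp₀ : p₀.Coprime l) :
    ∃ u : ℕ, u.Coprime l ∧ u % l ≠ l - 1 ∧ jacobiSym u l = jacobiSym p₀ l := by
  have hfact : Fact l.Prime := ⟨hl⟩
  have hodd : Odd l := hl.odd_of_ne_two (by omega)
  have hm1 : jacobiSym ((l - 1 : ℕ) : ℤ) l = jacobiSym (-1) l := by
    apply jacobiSym.mod_left'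
    push_cast [Nat.cast_sub hl.one_le]
    rw [sub_eq_add_neg, Int.emod_eq_emod_iff_emod_sub_eq_zero]
    simp
  by_cases h : jacobiSym (p₀ : ℤ) l = jacobiSym (-1) l
  · refine ⟨4 * (l - 1), ?_, ?_, ?_⟩
    · apply Nat.Coprime.mul_left
      · exact (Nat.Coprime.pow_left 2 (Nat.coprime_two_left.2 hodd) : Nat.Coprime (2 ^ 2) l)
      · rw [Nat.coprime_comm, Nat.Prime.coprime_iff_not_dvd hl]
        intro hd
        have := Nat.le_of_dvd (by omega) hd
        omega
    · intro h1
      have h2 : (4 * (l - 1) + 4) % l = 0 := by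
        have : 4 * (l - 1) + 4 = 4 * l := by omega
        rw [this]
        exact Nat.mul_mod_left 4 l
      rw [Nat.add_mod, h1] at h2
      by_cases h5 : l = 5
      · subst h5
        norm_num at h2
      · have h3 : 5 < l := by omega
        rw [Nat.mod_eq_of_lt (by omega : 4 < l)] at h2
        have h4 : (l - 1 + 4) = l + 3 := by omega
        rw [h4, Nat.add_mod_left, Nat.mod_eq_of_lt (by omega)] at h2
        omega
    · rw [Nat.cast_mul, jacobiSym.mul_left, hm1, h]
      have h4 : jacobiSym ((4 : ℕ) : ℤ) l = 1 := jacobiSym.at_four hodd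
      rw [h4, one_mul]
  · refine ⟨p₀, hp₀, ?_, rfl⟩
    intro h1
    apply h
    rw [← hm1]
    apply jacobiSym.mod_left'
    have h3 : ((p₀ % l : ℕ) : ℤ) = (((l - 1) % l : ℕ) : ℤ) := by
      rw [h1, Nat.mod_eq_of_lt (by omega)]
    push_cast at h3
    exact h3

end Pool.Agent.H482.QO
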