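import Mathlib
import Pool.Agent.H482.QO.Q6

/-!
The primes for independent sets of discriminants.
-/

set_option autoImplicit false

open Finset Filter

namespace Pool.Agent.H482.QO

open Pool.Agent.H482.RG (jac_same recip_same odd_of_mod8 jac_of_modEq)

/-- the exceptional set -/
def Univ (U : Finset ℕ) : Prop := 2 ∈ U ∧ 3 ∈ U ∧ (∀ u ∈ U, u.Prime) ∧
    ∀ c, (c = 3 ∨ c = 7) → ∃ V A m, V ⊆ U ∧ Base c V A m

theorem exists_Univ : ∃ U, Univ U := by
  classical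
  obtain ⟨U₃, A₃, m₃, h₃⟩ := exists_base 3 (by norm_num)
  obtain ⟨U₇, A₇, m₇, h₇⟩ := exists_base 7 (by norm_num)
  refine ⟨insert 2 (insert 3 (U₃ ∪ U₇)), mem_insert_self _ _,
    mem_insert_of_mem (mem_insert_self _ _), ?_, ?_⟩
  · intro u hu
    simp only [mem_insert, mem_union] at hu
    rcases hu with rfl | rfl | hu | hu
    · exact Nat.prime_two
    · exact Nat.prime_three
    · exact h₃.1 u hu
    · exact h₇.1 u hu
  · rintro c (rfl | rfl)
    · refine ⟨U₃, A₃, m₃, fun u hu => ?_, h₃⟩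
      simp only [mem_insert, mem_union]
      tauto
    · refine ⟨U₇, A₇, m₇, fun u hu => ?_, h₇⟩
      simp only [mem_insert, mem_union]
      tauto

open Classical in
/-- the good primes `p ≤ x` -/
noncomputable def Exs (c : ℕ) (N : Finset ℕ) (t : ℕ → ℕ) (M a x : ℕ) : Finset ℕ :=
  (Icc 1 x).filter (fun p => p.Prime ∧ p % 8 = c ∧ p ≡ a [MOD M] ∧
    ∀ d ∈ N, jacobiSym d p = -1 ∧ Good (t d) p)

theorem ndvd {n p : ℕ} (hp : p.Prime) (h : jacobiSym n p = -1) : ¬ p ∣ n := by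
  intro hd
  have h2 : jacobiSym n p = 0 := by
    rw [jacobiSym.eq_zero_iff]
    refine ⟨hp.ne_zero, ?_⟩
    rw [Int.gcd_natCast_natCast]
    intro h3
    have h4 : p ∣ Nat.gcd n p := Nat.dvd_gcd hd dvd_rfl
    rw [h3] at h4
    exact hp.one_lt.ne' (Nat.dvd_one.1 h4)
  rw [h2] at h
  norm_num at h

theorem ext_core {U : Finset ℕ} (hU : Univ U) (c : ℕ) (hc : c = 3 ∨ c = 7)
    (N : Finset ℕ) (t : ℕ → ℕ) (ht : ∀ d ∈ N, 1 ≤ t d ∧ ∃ y : ℕ, (t d) ^ 2 + 4 = d * y ^ 2)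
    (hN : Indep U N) (M a : ℕ) (hM0 : M ≠ 0) (hMU : ∀ u ∈ U, ¬ u ∣ M) (haM : a.Coprime M)
    (haq : ∀ q ∈ M.primeFactors, a % q ≠ q - 1) (hMN : ∀ d ∈ N, ∀ q ∈ M.primeFactors, ¬ q ∣ d) :
    ∃ δ : ℝ, 0 < δ ∧ ∃ᶠ x : ℕ in atTop, δ * (x / (Real.log x) ^ 2) < ((Exs c N t M a x).card : ℝ) := by
  classical
  have hc' : c = 1 ∨ c = 3 ∨ c = 5 ∨ c = 7 := by tauto
  obtain ⟨V, A, m, hVU, hVp, hmV, hAm, h24, hA8, hbase⟩ := hU.2.2.2 c hc
  obtain ⟨hm0, hAcop, hAq⟩ := hAm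
  -- the base prime
  obtain ⟨p₁, hp₁U, hp₁, hp₁A⟩ := Nat.forall_exists_prime_gt_and_modEq (U.sup id) hm0 hAcop
  have hp₁u : ∀ u ∈ U, u < p₁ := fun u hu => lt_of_le_of_lt (le_sup (f := id) hu) hp₁U
  obtain ⟨ε, hε⟩ : ∃ ε : ℕ → ℤ, ε = (fun u : ℕ => if jacobiSym ((u : ℕ) : ℤ) p₁ = -1 then (-1 : ℤ) else 1) :=
    ⟨_, rfl⟩
  have hε1 : ∀ u, ε u = 1 ∨ ε u = -1 := by
    intro u
    rw [hε]
    simp only
    split_ifs
    · exact Or.inr rfl
    · exact Or.inl rfl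
  have hεU : ∀ u ∈ U, ε u = jacobiSym (u : ℤ) p₁ := by
    intro u hu
    have h1 : jacobiSym (u : ℤ) p₁ = 1 ∨ jacobiSym (u : ℤ) p₁ = -1 := by
      apply jacobiSym.eq_one_or_neg_one
      rw [Int.gcd_natCast_natCast]
      exact (Nat.coprime_primes (hU.2.2.1 u hu) hp₁).2 (hp₁u u hu).ne
    rw [hε]
    simp only
    rcases h1 with h1 | h1
    · rw [if_neg (by rw [h1]; norm_num), h1]
    · rw [if_pos h1, h1]
  obtain ⟨p₀, hp₀, hp₀8, hp₀U, hJ⟩ := exists_symbols U hU.1 hU.2.2.1 c hc' N hN ε hε1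
  have hp₁8 : p₁ % 8 = c := by
    have h8 : 8 ∣ m := (by norm_num : 8 ∣ 24).trans h24
    have h9 : p₁ % 8 = A % 8 := hp₁A.of_dvd h8
    rw [h9, hA8]
  have hp₁o := odd_of_mod8 hc' hp₁8
  have hp₀o := odd_of_mod8 hc' hp₀8
  -- the remaining primes
  set Q : Finset ℕ := N.biUnion (fun n => n.primeFactors) with hQ
  have hQm : ∀ q ∈ Q, q.Prime ∧ ∃ n ∈ N, q ∣ n := by
    intro q hq
    rw [hQ, mem_biUnion] at hq
    obtain ⟨n, hn, hq⟩ := hq
    exact ⟨Nat.prime_of_mem_primeFactors hq, n, hn, Nat.dvd_of_mem_primeFactors hq⟩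
  set G : Finset ℕ := (U ∪ Q) \ (m.primeFactors ∪ M.primeFactors) with hG
  have hGm : ∀ q ∈ G, q.Prime ∧ ¬ q ∣ m ∧ ¬ q ∣ M ∧ 5 ≤ q ∧ p₀.Coprime q := by
    intro q hq
    rw [hG, Finset.mem_sdiff, mem_union, mem_union] at hq
    obtain ⟨hq1, hq2⟩ := hq
    push Not at hq2
    have hqp : q.Prime := by
      rcases hq1 with h | h
      · exact hU.2.2.1 q h
      · exact (hQm q h).1
    have hqm : ¬ q ∣ m := fun h => hq2.1 (Nat.mem_primeFactors.2 ⟨hqp, h, hm0⟩)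
    have hqM : ¬ q ∣ M := fun h => hq2.2 (Nat.mem_primeFactors.2 ⟨hqp, h, hM0⟩)
    have h5 : 5 ≤ q := by
      by_contra hcon
      have h2 := hqp.two_le
      have h3 : q = 2 ∨ q = 3 ∨ q = 4 := by omega
      rcases h3 with h | h | h
      · rw [h] at hqm; exact hqm ((by norm_num : 2 ∣ 24).trans h24)
      · rw [h] at hqm; exact hqm ((by norm_num : 3 ∣ 24).trans h24)
      · rw [h] at hqp; exact absurd hqp (by norm_num)
    refine ⟨hqp, hqm, hqM, h5, ?_⟩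
    rw [Nat.coprime_primes hp₀ hqp]
    rintro rfl
    rcases hq1 with h | h
    · have h6 := hp₀U p₀ h (by omega)
      have h7 : jacobiSym (p₀ : ℤ) p₀ = 0 := by
        rw [jacobiSym.eq_zero_iff]
        refine ⟨hp₀.ne_zero, ?_⟩
        rw [Int.gcd_natCast_natCast, Nat.gcd_self]
        exact hp₀.one_lt.ne'
      rw [h7] at h6
      rcases hε1 p₀ with h8 | h8 <;> rw [h8] at h6 <;> norm_num at h6
    · obtain ⟨-, n, hn, hqn⟩ := hQm p₀ h
      exact ndvd hp₀ (hJ n hn) hqn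
  have hcls : ∀ q, ∃ u : ℕ, q ∈ G → u.Coprime q ∧ u % q ≠ q - 1 ∧ jacobiSym u q = jacobiSym p₀ q := by
    intro q
    by_cases hq : q ∈ G
    · obtain ⟨h1, -, -, h4, h5⟩ := hGm q hq
      obtain ⟨u, hu⟩ := exists_class q h1 h4 p₀ h5
      exact ⟨u, fun _ => hu⟩
    · exact ⟨0, fun h => absurd h hq⟩
  choose g hg using hcls
  obtain ⟨aG, haG⟩ := Nat.chineseRemainderOfFinset g (fun q => q) G
    (fun q hq => (hGm q hq).1.ne_zero) (fun q hq r hr hqr =>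
      (Nat.coprime_primes (hGm q hq).1 (hGm r hr).1).2 hqr)
  set PG : ℕ := ∏ q ∈ G, q with hPG
  have hPG0 : PG ≠ 0 := by
    rw [hPG, prod_ne_zero_iff]
    exact fun q hq => (hGm q hq).1.ne_zero
  have hPGd : ∀ q : ℕ, q.Prime → q ∣ PG → q ∈ G := by
    intro q hq hqM
    obtain ⟨r, hr, hqr⟩ := (Prime.dvd_finsetProd_iff hq.prime _).1 hqM
    rw [(Nat.prime_dvd_prime_iff_eq hq (hGm r hr).1).1 hqr]
    exact hr
  have hmM : m.Coprime M := by
    apply Nat.coprime_of_dvd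
    intro q hq h1 h2
    exact hMU q (hVU (hmV (Nat.mem_primeFactors.2 ⟨hq, h1, hm0⟩))) h2
  have hmMG : (m * M).Coprime PG := by
    apply Nat.coprime_of_dvd
    intro q hq h1 h2
    obtain ⟨-, h3, h4, -⟩ := hGm q (hPGd q hq h2)
    rcases hq.dvd_mul.1 h1 with h | h
    · exact h3 h
    · exact h4 h
  obtain ⟨A₁, hA₁m, hA₁M⟩ := Nat.chineseRemainder hmM A a
  obtain ⟨A', hA'm, hA'G⟩ := Nat.chineseRemainder hmMG A₁ aG
  have hA'A : A' ≡ A [MOD m] := (hA'm.of_dvd (Dvd.intro _ rfl)).trans hA₁m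
  have hA'a : A' ≡ a [MOD M] := (hA'm.of_dvd (Dvd.intro_left _ rfl)).trans hA₁M
  have hA'g : ∀ q ∈ G, A' ≡ g q [MOD q] := fun q hq =>
    (hA'G.of_dvd (dvd_prod_of_mem _ hq)).trans (haG q hq)
  have hallow : Allowed A' (m * M * PG) := by
    refine ⟨mul_ne_zero (mul_ne_zero hm0 hM0) hPG0, ?_, ?_⟩
    · apply Nat.Coprime.mul_right
      · apply Nat.Coprime.mul_right
        · rw [Nat.Coprime, hA'A.gcd_eq]
          exact hAcop
        · rw [Nat.Coprime, hA'a.gcd_eq]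
          exact haM
      · rw [hPG]
        apply Nat.Coprime.prod_right
        intro q hq
        rw [Nat.Coprime, (hA'g q hq).gcd_eq]
        exact (hg q hq).1
    · intro q hq hq3
      have hqp := Nat.prime_of_mem_primeFactors hq
      have hqd := Nat.dvd_of_mem_primeFactors hq
      rcases hqp.dvd_mul.1 hqd with h | h
      · rcases hqp.dvd_mul.1 h with h | h
        · have h1 : A' % q = A % q := hA'A.of_dvd h
          rw [h1]
          exact hAq q (Nat.mem_primeFactors.2 ⟨hqp, h, hm0⟩) hq3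
        · have h1 : A' % q = a % q := hA'a.of_dvd h
          rw [h1]
          exact haq q (Nat.mem_primeFactors.2 ⟨hqp, h, hM0⟩)
      · have hqG := hPGd q hqp h
        have h1 : A' % q = g q % q := hA'g q hqG
        rw [h1]
        exact (hg q hqG).2.1
  have hpC : ∀ p : ℕ, p.Prime → p ≡ A' [MOD (m * M * PG)] → p % 8 = c ∧ p ≡ a [MOD M] ∧
      ∀ n ∈ N, jacobiSym n p = -1 := by
    intro p hp hpA
    have hpm : p ≡ A [MOD m] := (hpA.of_dvd ⟨M * PG, by ring⟩).trans hA'A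
    have hpM : p ≡ a [MOD M] := (hpA.of_dvd ⟨m * PG, by ring⟩).trans hA'a
    have hpg : ∀ q ∈ G, p ≡ g q [MOD q] := fun q hq =>
      (hpA.of_dvd ((dvd_prod_of_mem (fun q => q) hq).mul_left _)).trans (hA'g q hq)
    have hp8 : p % 8 = c := by
      have h8 : 8 ∣ m := (by norm_num : 8 ∣ 24).trans h24
      have h9 : p % 8 = A % 8 := hpm.of_dvd h8
      rw [h9, hA8]
    refine ⟨hp8, hpM, fun n hn => ?_⟩
    have hpo := odd_of_mod8 hc' hp8
    rw [← hJ n hn]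
    apply jac_same n (by exact_mod_cast hN.1 n hn) p p₀ hpo hp₀o (by rw [hp8, hp₀8])
    intro l hl hl2 hln
    rw [Int.natAbs_natCast] at hln
    by_cases hlM : l ∣ M
    · exact absurd hln (hMN n hn l (Nat.mem_primeFactors.2 ⟨hl, hlM, hM0⟩))
    · by_cases hlm : l ∣ m
      · have hlU : l ∈ U := hVU (hmV (Nat.mem_primeFactors.2 ⟨hl, hlm, hm0⟩))
        have h1 : p ≡ p₁ [MOD l] := (hpm.of_dvd hlm).trans (hp₁A.of_dvd hlm).symm
        rw [jac_of_modEq h1]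
        apply recip_same l (hl.odd_of_ne_two hl2) p₁ p₀ hp₁o hp₀o (by omega)
        rw [hp₀U l hlU hl2, hεU l hlU]
      · have hlQ : l ∈ Q := by
          rw [hQ, mem_biUnion]
          exact ⟨n, hn, Nat.mem_primeFactors.2 ⟨hl, hln, hN.1 n hn⟩⟩
        have hlG : l ∈ G := by
          rw [hG, Finset.mem_sdiff, mem_union, mem_union, Nat.mem_primeFactors, Nat.mem_primeFactors]
          exact ⟨Or.inr hlQ, by tauto⟩
        rw [jac_of_modEq (hpg l hlG)]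
        exact (hg l hlG).2.2
  -- the object
  have hns := hbase ⟨N.image t, {p | p % 8 = c ∧ p ≡ a [MOD M] ∧ ∀ n ∈ N, jacobiSym n p = -1}⟩ (by
      intro s hs
      have hs' : s ∈ N.image t := hs
      rw [mem_image] at hs'
      obtain ⟨d, hd, rfl⟩ := hs'
      obtain ⟨h1, y, hy⟩ := ht d hd
      refine ⟨h1, ?_⟩
      obtain ⟨l, hl, hlU, hodd⟩ := hN.2 {d} (singleton_subset_iff.2 hd) (singleton_nonempty d)
      rw [prod_singleton] at hodd
      refine ⟨l, hl, fun h => hlU (hVU h), ?_⟩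
      have hy0 : y ≠ 0 := by
        rintro rfl
        rw [zero_pow two_ne_zero, mul_zero] at hy
        omega
      rw [hy, Nat.factorization_mul (hN.1 d hd) (pow_ne_zero 2 hy0), Nat.factorization_pow]
      simp only [Finsupp.coe_add, Finsupp.coe_smul, Pi.add_apply, Pi.smul_apply, smul_eq_mul]
      exact hodd.add_even (even_two_mul _))
    ⟨A', m * M * PG, hallow, ⟨M * PG, by ring⟩, hA'A, hpC⟩
  unfold Obj.Stuck at hns
  push Not at hns
  obtain ⟨δ, hδ, h⟩ := hns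
  refine ⟨δ, hδ, ?_⟩
  have hfr : ∃ᶠ x : ℕ in atTop, δ * (x / (Real.log x) ^ 2) <
      ((Gd ⟨N.image t, {p | p % 8 = c ∧ p ≡ a [MOD M] ∧ ∀ n ∈ N, jacobiSym n p = -1}⟩ x).card : ℝ) := by
    rw [Filter.frequently_iff]
    intro S hS
    by_contra hcon
    push Not at hcon
    apply h
    filter_upwards [hS] with x hx
    exact not_lt.2 (hcon x hx)
  refine hfr.mono ?_
  intro x hx
  refine hx.trans_le ?_
  have hsub : Gd ⟨N.image t, {p | p % 8 = c ∧ p ≡ a [MOD M] ∧ ∀ n ∈ N, jacobiSym n p = -1}⟩ x ⊆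
      Exs c N t M a x := by
    intro p hp
    rw [mem_Gd] at hp
    obtain ⟨hp1, hpp, ⟨hp8, hpa, hpN⟩, hps⟩ := hp
    unfold Exs
    rw [mem_filter]
    exact ⟨hp1, hpp, hp8, hpa, fun n hn => ⟨hpN n hn, hps (t n) (mem_image_of_mem t hn)⟩⟩
  exact_mod_cast card_le_card hsub

end Pool.Agent.H482.QO
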