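import Mathlib
import Pool.Agent.H482.QO.Q7
import Pool.Agent.H482.QO.Q11

/-!
Orders of prime conductor in real quadratic fields: class groups and factorisations.
-/

set_option autoImplicit false

open NumberField

namespace Pool.Agent.H482.QO

/-- the order `ℤ + f 𝓞` -/
def order (K : Type) [Field K] [NumberField K] (f : ℕ) : Subring (𝓞 K) where
  carrier := {x | ∃ (n : ℤ) (y : 𝓞 K), x = n + f * y}
  mul_mem' := by
    rintro _ _ ⟨n, y, rfl⟩ ⟨m, z, rfl⟩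
    exact ⟨n * m, n * z + m * y + f * y * z, by push_cast; ring⟩
  one_mem' := ⟨1, 0, by simp⟩
  add_mem' := by
    rintro _ _ ⟨n, y, rfl⟩ ⟨m, z, rfl⟩
    exact ⟨n + m, y + z, by push_cast; ring⟩
  zero_mem' := ⟨0, 0, by simp⟩
  neg_mem' := by
    rintro _ ⟨n, y, rfl⟩
    exact ⟨-n, -y, by push_cast; ring⟩

theorem mem_order {K : Type} [Field K] [NumberField K] {f : ℕ} {x : 𝓞 K} :
    x ∈ order K f ↔ ∃ (n : ℤ) (y : 𝓞 K), x = n + f * y := Iff.rfl

section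

variable {K : Type} [Field K] [NumberField K]

theorem mem_order_of_sub (p : ℕ) (x : 𝓞 K) (n : ℤ) (h : x - n ∈ Ideal.span {(p : 𝓞 K)}) :
    x ∈ order K p := by
  obtain ⟨y, hy⟩ := Ideal.mem_span_singleton'.1 h
  exact ⟨n, y, by linear_combination -hy⟩

theorem cnd (p : ℕ) (hp : p.Prime) (hmax : (Ideal.span {(p : 𝓞 K)}).IsMaximal)
    (hint : ∀ n : ℤ, (n : 𝓞 K) ∈ Ideal.span {(p : 𝓞 K)} ↔ (p : ℤ) ∣ n) :
    Cnd (order K p) (Ideal.span {(p : 𝓞 K)}) := by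
  refine ⟨?_, ?_, ?_, ?_⟩
  · intro x hx
    exact mem_order_of_sub p x 0 (by simpa using hx)
  · intro h
    exact hmax.ne_top ((Ideal.eq_top_iff_one _).2 h)
  · rintro _ ⟨n, y, rfl⟩ hn
    have h1 : ¬ (p : ℤ) ∣ n := by
      intro h
      apply hn
      exact Ideal.add_mem _ ((hint n).2 h) (Ideal.mul_mem_right _ _ (Ideal.mem_span_singleton_self _))
    have h2 : IsCoprime (p : ℤ) n := by
      rw [Int.isCoprime_iff_gcd_eq_one]
      rw [Int.gcd_comm]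
      have h3 : Nat.Coprime p n.natAbs := (Nat.Prime.coprime_iff_not_dvd hp).2 (by
        rwa [← Int.natCast_dvd])
      rw [Int.gcd_comm]
      exact h3
    obtain ⟨a, b, hab⟩ := h2
    refine ⟨(b : 𝓞 K), ⟨b, 0, by simp⟩, ?_⟩
    have h3 : ((a : 𝓞 K)) * p + b * n = 1 := by exact_mod_cast congrArg (fun z : ℤ => (z : 𝓞 K)) hab
    rw [Ideal.mem_span_singleton']
    exact ⟨y * b - a, by linear_combination -h3⟩
  · intro a ha
    obtain ⟨y, i, hi, hy⟩ := hmax.exists_inv ha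
    refine ⟨y, ?_⟩
    have h1 : a * y - 1 = -i := by linear_combination hy
    rw [h1]
    exact neg_mem hi

theorem main (hK : Module.finrank ℚ K = 2) (p : ℕ) (hp : p.Prime) (hp4 : p % 4 = 3) (d t y : ℕ)
    (s : K) (hs : s ^ 2 = d) (hj : jacobiSym d p = -1) (hty : t ^ 2 + 4 = d * y ^ 2)
    (hG : Good t p) :
    (Ideal.span {(p : 𝓞 K)}).IsPrime ∧
    (∀ x : 𝓞 K, ∃ u : (𝓞 K)ˣ, (u : 𝓞 K) * x ∈ order K p) ∧
    Function.Bijective (ClassGroup.extendedHom (order K p) (𝓞 K)) ∧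
    (HalfFactorial (order K p) ↔ HalfFactorial (𝓞 K)) ∧
    (UniqueFactorizationMonoid (𝓞 K) →
      Subsingleton (ClassGroup (order K p)) ∧ HalfFactorial (order K p)) := by
  have hint : IsIntegral ℤ s := by
    refine ⟨Polynomial.X ^ 2 - Polynomial.C (d : ℤ), ?_, ?_⟩
    · monicity!
    · rw [Polynomial.eval₂_sub, Polynomial.eval₂_pow,
        Polynomial.eval₂_X, Polynomial.eval₂_C, map_natCast, hs]
      ring
  obtain ⟨σ, hσ⟩ : ∃ σ : 𝓞 K, algebraMap (𝓞 K) K σ = s := ⟨⟨s, hint⟩, rfl⟩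
  have hσ2 : σ ^ 2 = d := by
    apply RingOfIntegers.coe_injective
    rw [map_pow, hσ, hs, map_natCast]
  obtain ⟨hmax, hZ, hu⟩ := unit_act hK p hp hp4 d t y σ hσ2 hj hty hG
  have hC := cnd p hp hmax hZ
  have hu' : ∀ x : 𝓞 K, ∃ u : (𝓞 K)ˣ, (u : 𝓞 K) * x ∈ order K p := by
    intro x
    obtain ⟨u, n, hun⟩ := hu x
    exact ⟨u, mem_order_of_sub p _ n hun⟩
  have hbij : Function.Bijective (ClassGroup.extendedHom (order K p) (𝓞 K)) :=
    ⟨cg_injective _ _ hC (fun x _ => hu' x), cg_surjective _ _ hC⟩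
  have hiff := halfFactorial_iff _ _ hC hmax.isPrime hu'
  refine ⟨hmax.isPrime, hu', hbij, hiff, ?_⟩
  intro hufd
  exact ⟨hbij.1.subsingleton, hiff.2 halfFactorial_of_ufm⟩

end

end Pool.Agent.H482.QO
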